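import Pool.Agent.Lib.MP_c98431_lc.Level

/-!
# JOB Color: items of weight `1`, three colours
-/

set_option autoImplicit false

open Finset

namespace Pool.Agent.MPc98431

variable {K : Type}

/-- With weights `1` and load less than `2` a cell is covered by at most one item. -/
private theorem color_unique {x : ℕ → Item K} {A : ℕ → Prop} {m : ℕ} {k : K} {e : ℤ}
    (h1 : ∀ i < m, (x i).key = k → (x i).w = 1) (h : ld x A m k e < 2) {i j : ℕ}
    (hi : i < m ∧ A i ∧ (x i).key = k ∧ e ∈ (x i).cells) (hj : j < m ∧ A j ∧ (x j).key = k ∧ e ∈ (x j).cells) :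
    i = j := by
  classical
  by_contra hne
  have h2 : ∑ a ∈ ({i, j} : Finset ℕ), (x a).w ≤ ld x A m k e := by
    unfold ld
    apply Finset.sum_le_sum_of_subset_of_nonneg
    · intro a ha
      rw [Finset.mem_insert, Finset.mem_singleton] at ha
      rw [Finset.mem_filter, Finset.mem_range]
      rcases ha with rfl | rfl
      · exact hi
      · exact hj
    · intro a ha _
      rw [Finset.mem_filter, Finset.mem_range] at ha
      rw [h1 a ha.1 ha.2.2.1]
      exact zero_le_one
  rw [Finset.sum_pair hne, h1 i hi.1 hi.2.2.1, h1 j hj.1 hj.2.2.1] at h2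
  linarith

/-- Private cells (all items of key `k` have weight `1`): every virtually accepted item `j` with key `k` and
at least one cell has a cell which belongs to no other virtually accepted item of the same key and level.
Level `≥ 2`: the witness of `lev_wit`; `wit_load` gives load `< 2` there, loads are sums of `1`s, so only `j` itself.
Level `1`: `load_one`, any cell. -/
theorem private_cell {x : ℕ → Item K} {V : ℕ → Prop} {lev : ℕ → ℕ} (hL : IsLev x V lev) {m : ℕ} {M : ℝ}
    (hx : Good x M m) (k : K) (h1 : ∀ i < m, (x i).key = k → (x i).w = 1) {j : ℕ} (hj : j < m) (hVj : V j)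
    (hk : (x j).key = k) (hne : (x j).cells.Nonempty) :
    ∃ e ∈ (x j).cells, ∀ i < m, V i → (x i).key = k → lev i = lev j → e ∈ (x i).cells → i = j := by
  have hpos : 1 ≤ lev j := (lev_mem hL j).1
  rcases Nat.lt_or_ge (lev j) 2 with h2 | h2
  · have hl : lev j = 1 := by omega
    obtain ⟨e, he⟩ := hne
    refine ⟨e, he, fun i hi hVi hki hli hei => ?_⟩
    have h3 := load_one hL hx k e
    exact color_unique (A := fun i => V i ∧ lev i = 1) (e := e) h1 (by linarith) ⟨hi, ⟨hVi, by rw [hli, hl]⟩, hki, hei⟩ ⟨hj, ⟨hVj, hl⟩, hk, he⟩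
  · obtain ⟨q, hq⟩ := Nat.exists_eq_add_of_le h2
    have hl : lev j = q + 2 := by omega
    obtain ⟨e, he, hw⟩ := lev_wit hL hl
    refine ⟨e, he, fun i hi hVi hki hli hei => ?_⟩
    have h3 := wit_load hL hx hj hVj hl he hw
    rw [h1 j hj hk, hk] at h3
    exact color_unique (A := fun i => V i ∧ lev i = q + 2) (e := e) h1 (by linarith) ⟨hi, ⟨hVi, by rw [hli, hl]⟩, hki, hei⟩ ⟨hj, ⟨hVj, hl⟩, hk, he⟩

/-- The set of the `i < j` (virtually accepted, same key and level) which intersect `j` has at most two elements: of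
three of them two would have their private cells on the same side of the interval `I_j`, and the one with the
farther private cell would contain the other private cell. -/
theorem neighbours_le {x : ℕ → Item K} {V : ℕ → Prop} {lev : ℕ → ℕ} (hL : IsLev x V lev) {m : ℕ} {M : ℝ}
    (hx : Good x M m) (k : K) (h1 : ∀ i < m, (x i).key = k → (x i).w = 1) {j : ℕ} (hj : j < m) (hVj : V j)
    (hk : (x j).key = k) (T : Finset ℕ)
    (hT : ∀ i ∈ T, i < j ∧ V i ∧ (x i).key = k ∧ lev i = lev j ∧ ((x i).cells ∩ (x j).cells).Nonempty) :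
    T.card ≤ 2 := by
  classical
  by_contra hcard
  push Not at hcard
  have hpriv : ∀ i : ℕ, ∃ e : ℤ, i ∈ T → e ∈ (x i).cells ∧
      ∀ i' < m, V i' → (x i').key = k → lev i' = lev i → e ∈ (x i').cells → i' = i := by
    intro i
    by_cases hi : i ∈ T
    · obtain ⟨h2, h3, h4, h5, ⟨c, hc⟩⟩ := hT i hi
      obtain ⟨e, he, h6⟩ := private_cell hL hx k h1 (h2.trans hj) h3 h4 ⟨c, (Finset.mem_inter.mp hc).1⟩
      exact ⟨e, fun _ => ⟨he, h6⟩⟩
    · exact ⟨0, fun h => absurd h hi⟩
  choose e he using hpriv
  obtain ⟨i, hi, i', hi', hne, hside⟩ := Finset.exists_ne_map_eq_of_card_lt_of_maps_to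
    (s := T) (t := (Finset.univ : Finset Bool)) (by simpa using hcard)
    (f := fun i => decide (e i < (x j).lo)) (fun _ _ => Finset.mem_univ _)
  -- one order of the two private cells on each side is enough
  have main : ∀ a ∈ T, ∀ b ∈ T, (decide (e a < (x j).lo) = decide (e b < (x j).lo)) → a ≠ b → e a ≤ e b → False := by
    intro a ha b hb hab hne hle
    obtain ⟨ha1, ha2, ha3, ha4, ⟨ca, hca⟩⟩ := hT a ha
    obtain ⟨hb1, hb2, hb3, hb4, ⟨cb, hcb⟩⟩ := hT b hb
    obtain ⟨hea, hpa⟩ := he a ha
    obtain ⟨heb, hpb⟩ := he b hb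
    have hja : e a ∉ (x j).cells := fun h => by
      have := hpa j hj hVj hk ha4.symm h
      omega
    have hjb : e b ∉ (x j).cells := fun h => by
      have := hpb j hj hVj hk hb4.symm h
      omega
    rw [Finset.mem_inter] at hca hcb
    simp only [Item.cells, Finset.mem_Ico] at hca hcb hea heb hja hjb
    by_cases hs : e a < (x j).lo
    · have hs' : e b < (x j).lo := by
        have h2 : decide (e b < (x j).lo) = true := by rw [← hab]; exact decide_eq_true hs
        exact of_decide_eq_true h2
      -- `a` contains the private cell of `b`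
      apply hne
      apply hpb a (ha1.trans hj) ha2 ha3 (by rw [ha4, hb4])
      simp only [Item.cells, Finset.mem_Ico]
      omega
    · have hs' : ¬ e b < (x j).lo := by
        intro h
        have h2 : decide (e a < (x j).lo) = true := by rw [hab]; exact decide_eq_true h
        exact hs (of_decide_eq_true h2)
      apply hne
      symm
      apply hpa b (hb1.trans hj) hb2 hb3 (by rw [ha4, hb4])
      simp only [Item.cells, Finset.mem_Ico]
      omega
  rcases le_total (e i) (e i') with h | h
  · exact main i hi i' hi' hside hne h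
  · exact main i' hi' i hi hside.symm hne.symm h

/-- So one of the colours `0, 1, 2` is admissible. -/
theorem col_lt {x : ℕ → Item K} {V : ℕ → Prop} {lev col : ℕ → ℕ} (hL : IsLev x V lev)
    (hC : IsCol x V lev col) {m : ℕ} {M : ℝ}
    (hx : Good x M m) (k : K) (h1 : ∀ i < m, (x i).key = k → (x i).w = 1) {j : ℕ} (hj : j < m) (hVj : V j)
    (hk : (x j).key = k) : col j < 3 := by
  classical
  rw [hC j]
  by_contra hcon
  push Not at hcon
  have hnot : ∀ c < 3, c ∉ colSet x V lev col j := by
    intro c hc hmem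
    have := Nat.sInf_le hmem
    omega
  have hex : ∀ c < 3, ∃ i, (i < j ∧ V i ∧ (x i).key = k ∧ lev i = lev j ∧ ((x i).cells ∩ (x j).cells).Nonempty) ∧
      col i = c := by
    intro c hc
    have h2 := hnot c hc
    simp only [colSet, Set.mem_ofPred_eq] at h2
    push Not at h2
    obtain ⟨i, h3, h4, h5, h6, h7, h8⟩ := h2
    exact ⟨i, ⟨h3, h4, by rw [h5, hk], h6, h7⟩, h8⟩
  obtain ⟨i0, h0, c0⟩ := hex 0 (by norm_num)
  obtain ⟨i1, h1', c1⟩ := hex 1 (by norm_num)
  obtain ⟨i2, h2, c2⟩ := hex 2 (by norm_num)
  have h01 : i0 ≠ i1 := by rintro rfl; omega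
  have h02 : i0 ≠ i2 := by rintro rfl; omega
  have h12 : i1 ≠ i2 := by rintro rfl; omega
  have hle := neighbours_le hL hx k h1 hj hVj hk {i0, i1, i2} (by
    intro i hi
    simp only [Finset.mem_insert, Finset.mem_singleton] at hi
    rcases hi with rfl | rfl | rfl
    · exact h0
    · exact h1'
    · exact h2)
  rw [Finset.card_eq_three.mpr ⟨i0, i1, i2, h01, h02, h12, rfl⟩] at hle
  omega

private theorem color_mem {x : ℕ → Item K} {V : ℕ → Prop} {lev col : ℕ → ℕ}
    (hC : IsCol x V lev col) (j : ℕ) : col j ∈ colSet x V lev col j := by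
  classical
  have hne : (colSet x V lev col j).Nonempty := by
    obtain ⟨c, hc⟩ := Infinite.exists_notMem_finset ((range j).image col)
    refine ⟨c, fun i hi _ _ _ _ h => hc ?_⟩
    rw [Finset.mem_image]
    exact ⟨i, Finset.mem_range.mpr hi, h⟩
  rw [hC j]
  exact Nat.sInf_mem hne

/-- Items with the same key, level and colour are disjoint (`sInf` of the nonempty set `colSet` belongs to it). -/
theorem col_disj {x : ℕ → Item K} {V : ℕ → Prop} {lev col : ℕ → ℕ} (hL : IsLev x V lev)
    (hC : IsCol x V lev col) {m : ℕ} {M : ℝ}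
    (hx : Good x M m) (k : K) (h1 : ∀ i < m, (x i).key = k → (x i).w = 1) {i j : ℕ} (hi : i < m) (hj : j < m)
    (hVi : V i) (hVj : V j) (hki : (x i).key = k) (hkj : (x j).key = k) (hlev : lev i = lev j)
    (hcol : col i = col j) (hij : i ≠ j) : Disjoint (x i).cells (x j).cells := by
  have main : ∀ a b : ℕ, a < b → V a → (x a).key = (x b).key → lev a = lev b → col a = col b →
      Disjoint (x a).cells (x b).cells := by
    intro a b hab hVa hkab hlab hcab
    rw [Finset.disjoint_iff_inter_eq_empty]
    by_contra hne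
    exact color_mem hC b a hab hVa hkab hlab (Finset.nonempty_iff_ne_empty.mpr hne) hcab
  rcases lt_or_gt_of_ne hij with h | h
  · exact main i j h hVi (by rw [hki, hkj]) hlev hcol
  · exact (main j i h hVj (by rw [hki, hkj]) hlev.symm hcol.symm).symm

end Pool.Agent.MPc98431
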