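import Mathlib

/-!
# Online call admission on the line: definitions

The line has the vertices `0, ..., n - 1`; the edge `e` joins the vertices `e` and `e + 1`.  Between two
vertices of the line there is exactly one path, so accepting a request means to reserve the bandwidth on
all edges between its end points.
-/

set_option autoImplicit false

open Finset

namespace Pool.Agent.MPc98431

/-- A request `(s, t, r, d, b)` with arrival time `arr`. -/
structure Req (n : ℕ) where
  s : Fin n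
  t : Fin n
  arr : ℝ
  r : ℝ
  d : ℝ
  b : ℝ

variable {n : ℕ}

/-- The edges of the path from `s` to `t`. -/
def Req.path (x : Req n) : Finset ℕ := Ico (min (x.s : ℕ) x.t) (max (x.s : ℕ) x.t)

/-- The request is active at time `τ` (if it is accepted). -/
def Req.Active (x : Req n) (τ : ℝ) : Prop := x.arr ≤ τ ∧ τ < x.arr + x.d

/-- `σ 0, ..., σ (m-1)` is an admissible sequence of requests for the capacity `u` and the ranges
`Δb, Δd, Δr` of the benefits, durations and bandwidths. -/
structure Valid (u Δb Δd Δr : ℝ) (σ : ℕ → Req n) (m : ℕ) : Prop where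
  arr_mono : ∀ i j, i ≤ j → j < m → (σ i).arr ≤ (σ j).arr
  r_pos : ∀ i < m, 0 < (σ i).r
  r_le : ∀ i < m, (σ i).r ≤ u
  d_pos : ∀ i < m, 0 < (σ i).d
  b_pos : ∀ i < m, 0 < (σ i).b
  b_range : ∀ i < m, ∀ j < m, (σ i).b ≤ Δb * (σ j).b
  d_range : ∀ i < m, ∀ j < m, (σ i).d ≤ Δd * (σ j).d
  r_range : ∀ i < m, ∀ j < m, (σ i).r ≤ Δr * (σ j).r

open Classical in
/-- The set `S` of requests among `σ 0, ..., σ (m-1)` can be accepted: at every time the bandwidth in use
on each edge is at most `u`. -/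
def Feas (u : ℝ) (σ : ℕ → Req n) (m : ℕ) (S : Finset ℕ) : Prop :=
  S ⊆ range m ∧ ∀ (e : ℕ) (τ : ℝ),
    ∑ j ∈ S.filter (fun j => e ∈ (σ j).path ∧ (σ j).Active τ), (σ j).r ≤ u

/-- The total benefit of a set of requests. -/
def gain (σ : ℕ → Req n) (S : Finset ℕ) : ℝ := ∑ j ∈ S, (σ j).b

/-- A deterministic online algorithm: `acc σ j` says whether the request `σ j` is accepted; this depends
only on `σ 0, ..., σ j`. -/
structure OnlineAlg (n : ℕ) where
  acc : (ℕ → Req n) → ℕ → Prop
  online : ∀ (σ σ' : ℕ → Req n) (j : ℕ), (∀ i ≤ j, σ i = σ' i) → (acc σ j ↔ acc σ' j)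

open Classical in
/-- The requests accepted among the first `m`. -/
noncomputable def OnlineAlg.accepted (A : OnlineAlg n) (σ : ℕ → Req n) (m : ℕ) : Finset ℕ :=
  (range m).filter (fun j => A.acc σ j)

/-- A randomized online algorithm: a finite probability distribution on deterministic online algorithms. -/
structure RandAlg (n : ℕ) where
  Ω : Type
  fin : Fintype Ω
  p : Ω → ℝ
  p_nonneg : ∀ ω, 0 ≤ p ω
  p_sum : ∑ ω, p ω = 1
  alg : Ω → OnlineAlg n

attribute [instance] RandAlg.fin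

/-- The expected gain. -/
noncomputable def RandAlg.egain (A : RandAlg n) (σ : ℕ → Req n) (m : ℕ) : ℝ :=
  ∑ ω, A.p ω * gain σ ((A.alg ω).accepted σ m)

/-- `A` never violates a capacity and is `ρ`-competitive on the sequences with the given ranges
(`OPT` is the largest gain of a feasible set). -/
def RandAlg.Competitive (A : RandAlg n) (u Δb Δd Δr ρ : ℝ) : Prop :=
  ∀ (σ : ℕ → Req n) (m : ℕ), Valid u Δb Δd Δr σ m →
    (∀ ω, Feas u σ m ((A.alg ω).accepted σ m)) ∧
    ∀ S, Feas u σ m S → gain σ S ≤ ρ * A.egain σ m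

/-! ## Permanent calls (`d = ∞`) -/

/-- The same for permanent calls: durations are ignored, an accepted call stays forever. -/
structure ValidP (u Δb Δr : ℝ) (σ : ℕ → Req n) (m : ℕ) : Prop where
  arr_mono : ∀ i j, i ≤ j → j < m → (σ i).arr ≤ (σ j).arr
  r_pos : ∀ i < m, 0 < (σ i).r
  r_le : ∀ i < m, (σ i).r ≤ u
  b_pos : ∀ i < m, 0 < (σ i).b
  b_range : ∀ i < m, ∀ j < m, (σ i).b ≤ Δb * (σ j).b
  r_range : ∀ i < m, ∀ j < m, (σ i).r ≤ Δr * (σ j).r

open Classical in
/-- Feasibility for permanent calls. -/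
def FeasP (u : ℝ) (σ : ℕ → Req n) (m : ℕ) (S : Finset ℕ) : Prop :=
  S ⊆ range m ∧ ∀ e : ℕ, ∑ j ∈ S.filter (fun j => e ∈ (σ j).path), (σ j).r ≤ u

/-- Competitiveness for permanent calls. -/
def RandAlg.CompetitiveP (A : RandAlg n) (u Δb Δr ρ : ℝ) : Prop :=
  ∀ (σ : ℕ → Req n) (m : ℕ), ValidP u Δb Δr σ m →
    (∀ ω, FeasP u σ m ((A.alg ω).accepted σ m)) ∧
    ∀ S, FeasP u σ m S → gain σ S ≤ ρ * A.egain σ m

end Pool.Agent.MPc98431
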