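import Pool.Agent.Lib.MP_c98431_lc.InstDefs

/-!
# JOB InstA: reduction A (duration classes and epochs)
-/

set_option autoImplicit false

open Finset

namespace Pool.Agent.MPc98431

variable {n : ℕ}

/-- `2^i D ≤ d_j < 2^{i+1} D` for the duration class `i` (`D = d_0/Δd ≤ d_j`, `Nat.log`). -/
theorem dcl_spec {u Δb Δd Δr : ℝ} (hd : 1 ≤ Δd) {σ : ℕ → Req n} {m : ℕ}
    (hσ : Valid u Δb Δd Δr σ m) {j : ℕ} (hj : j < m) :
    0 < dmin Δd σ ∧ dmin Δd σ * 2 ^ dcl Δd σ j ≤ (σ j).d ∧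
      (σ j).d < dmin Δd σ * 2 ^ dcl Δd σ j * 2 := by
  have h0 : 0 < m := by omega
  have hd0 := hσ.d_pos 0 h0
  have hΔ : 0 < Δd := by linarith
  have hD : 0 < dmin Δd σ := div_pos hd0 hΔ
  have hr := hσ.d_range 0 h0 j hj
  have h1 : 1 ≤ (σ j).d / dmin Δd σ := by
    rw [le_div_iff₀ hD, one_mul]
    unfold dmin
    rw [div_le_iff₀ hΔ]
    linarith
  have h2 : 1 ≤ ⌊(σ j).d / dmin Δd σ⌋₊ := by
    rw [Nat.one_le_floor_iff]
    exact h1
  have h3 : 2 ^ dcl Δd σ j ≤ ⌊(σ j).d / dmin Δd σ⌋₊ := Nat.pow_log_le_self 2 (by omega)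
  have h4 : ⌊(σ j).d / dmin Δd σ⌋₊ < 2 ^ (dcl Δd σ j + 1) := Nat.lt_pow_succ_log_self (by norm_num) _
  have h5 : ((⌊(σ j).d / dmin Δd σ⌋₊ : ℕ) : ℝ) ≤ (σ j).d / dmin Δd σ := Nat.floor_le (by linarith)
  have h6 : (σ j).d / dmin Δd σ < ((⌊(σ j).d / dmin Δd σ⌋₊ : ℕ) : ℝ) + 1 := Nat.lt_floor_add_one _
  have h3' : (2 : ℝ) ^ dcl Δd σ j ≤ (σ j).d / dmin Δd σ := by
    refine le_trans ?_ h5
    exact_mod_cast h3
  have h4' : (σ j).d / dmin Δd σ < 2 ^ dcl Δd σ j * 2 := by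
    refine lt_of_lt_of_le h6 ?_
    have h7 : ⌊(σ j).d / dmin Δd σ⌋₊ + 1 ≤ 2 ^ dcl Δd σ j * 2 := by
      rw [← pow_succ]
      exact h4
    exact_mod_cast h7
  refine ⟨hD, ?_, ?_⟩
  · rw [le_div_iff₀ hD] at h3'
    linarith
  · rw [div_lt_iff₀ hD] at h4'
    linarith

/-- `d_j/D ≤ Δd²` -/
theorem clsA_lt {u Δb Δd Δr : ℝ} (hd : 1 ≤ Δd) {σ : ℕ → Req n} {m : ℕ}
    (hσ : Valid u Δb Δd Δr σ m) {j : ℕ} (hj : j < m) :
    clsA (itmA u Δb Δd Δr σ j).key < 3 * NL Δd := by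
  have h0 : 0 < m := by omega
  have hd0 := hσ.d_pos 0 h0
  have hΔ : 0 < Δd := by linarith
  have hD : 0 < dmin Δd σ := div_pos hd0 hΔ
  have hr := hσ.d_range j hj 0 h0
  have h1 : (σ j).d / dmin Δd σ ≤ Δd ^ 2 := by
    rw [div_le_iff₀ hD]
    unfold dmin
    have : Δd ^ 2 * ((σ 0).d / Δd) = Δd * (σ 0).d := by
      field_simp
    rw [this]
    exact hr
  have h2 : dcl Δd σ j ≤ Nat.log 2 ⌊Δd ^ 2⌋₊ := Nat.log_mono_right (Nat.floor_mono h1)
  have h3 : ((itmA u Δb Δd Δr σ j).key.2.2 % 3).toNat < 3 := by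
    have ha := Int.emod_lt_of_pos (itmA u Δb Δd Δr σ j).key.2.2 (by norm_num : (0 : ℤ) < 3)
    omega
  have h4 : (itmA u Δb Δd Δr σ j).key.2.1 = dcl Δd σ j := rfl
  unfold clsA NL
  rw [h4]
  omega

/-- Same class: same duration class `i`, epochs congruent modulo `3`.  Both active at `τ`: both arrivals are in
`(τ - 2 D 2^i, τ]`, so the epochs differ by at most `2`, hence they are equal.  The sizes agree by `hlarge`. -/
theorem itmA_sep {u Δb Δd Δr : ℝ} (hd : 1 ≤ Δd) {σ : ℕ → Req n} {m : ℕ}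
    (hσ : Valid u Δb Δd Δr σ m) {i j : ℕ} (hi : i < m) (hj : j < m) {τ : ℝ}
    (hti : (σ i).Active τ) (htj : (σ j).Active τ)
    (hcls : clsA (itmA u Δb Δd Δr σ i).key = clsA (itmA u Δb Δd Δr σ j).key)
    (hlarge : (itmA u Δb Δd Δr σ i).key.1 = true ↔ (itmA u Δb Δd Δr σ j).key.1 = true) :
    (itmA u Δb Δd Δr σ i).key = (itmA u Δb Δd Δr σ j).key := by
  obtain ⟨hD, hi1, hi2⟩ := dcl_spec hd hσ hi
  obtain ⟨_, hj1, hj2⟩ := dcl_spec hd hσ hj
  have hki : ∀ l, (itmA u Δb Δd Δr σ l).key.2.1 = dcl Δd σ l := fun _ => rfl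
  have hke : ∀ l, (itmA u Δb Δd Δr σ l).key.2.2 = epo Δd σ l := fun _ => rfl
  have hm1 := Int.emod_lt_of_pos (epo Δd σ i) (by norm_num : (0 : ℤ) < 3)
  have hm2 := Int.emod_nonneg (epo Δd σ i) (by norm_num : (3 : ℤ) ≠ 0)
  have hm3 := Int.emod_lt_of_pos (epo Δd σ j) (by norm_num : (0 : ℤ) < 3)
  have hm4 := Int.emod_nonneg (epo Δd σ j) (by norm_num : (3 : ℤ) ≠ 0)
  unfold clsA at hcls
  rw [hki, hki, hke, hke] at hcls
  have hdc : dcl Δd σ i = dcl Δd σ j := by omega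
  have hmod : epo Δd σ i % 3 = epo Δd σ j % 3 := by omega
  have hP : 0 < dmin Δd σ * 2 ^ dcl Δd σ j := by positivity
  rw [hdc] at hi1 hi2
  have hclose : ∀ a b : ℕ, (σ a).Active τ → (σ b).Active τ →
      (σ a).d < dmin Δd σ * 2 ^ dcl Δd σ j * 2 → dcl Δd σ a = dcl Δd σ j → dcl Δd σ b = dcl Δd σ j →
      epo Δd σ b - epo Δd σ a < 3 := by
    intro a b ha hb hda hca hcb
    have h1 : (σ b).arr / (dmin Δd σ * 2 ^ dcl Δd σ j) - (σ a).arr / (dmin Δd σ * 2 ^ dcl Δd σ j) < 2 := by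
      rw [← sub_div, div_lt_iff₀ hP]
      have h2 := ha.2
      have h3 := hb.1
      linarith
    have h2 := Int.floor_le ((σ b).arr / (dmin Δd σ * 2 ^ dcl Δd σ j))
    have h3 := Int.lt_floor_add_one ((σ a).arr / (dmin Δd σ * 2 ^ dcl Δd σ j))
    have h4 : ((⌊(σ b).arr / (dmin Δd σ * 2 ^ dcl Δd σ j)⌋ - ⌊(σ a).arr / (dmin Δd σ * 2 ^ dcl Δd σ j)⌋ : ℤ) : ℝ)
        < 3 := by
      push_cast
      linarith
    unfold epo
    rw [hca, hcb]
    exact_mod_cast h4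
  have hc1 := hclose i j hti htj hi2 hdc rfl
  have hc2 := hclose j i htj hti hj2 rfl hdc
  have hepo : epo Δd σ i = epo Δd σ j := by omega
  have hb : (itmA u Δb Δd Δr σ i).key.1 = (itmA u Δb Δd Δr σ j).key.1 := Bool.eq_iff_iff.2 hlarge
  refine Prod.ext hb (Prod.ext ?_ ?_)
  · rw [hki, hki, hdc]
  · rw [hke, hke, hepo]

theorem itmA_cell (u Δb Δd Δr : ℝ) (σ : ℕ → Req n) (j e : ℕ) (he : e ∈ (σ j).path) :
    (e : ℤ) ∈ (itmA u Δb Δd Δr σ j).cells := by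
  rw [Req.path, Finset.mem_Ico] at he
  rw [Item.cells, Finset.mem_Ico]
  exact ⟨Int.ofNat_le.2 he.1, Int.ofNat_lt.2 he.2⟩

open Classical in
/-- All requests of one key are active at the time `τ` of the last arrival among them (arrivals in
`[k D', (k+1) D')`, durations `≥ D'`, `D' = D 2^i`).  So the requests of `S` with this key which contain the edge
`z` have total bandwidth `≤ u`: small ones have weight `4r/u`; large ones weight `1 ≤ 4 r/u`.  (No cell if `z < 0`.) -/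
theorem itmA_opt {u Δb Δd Δr : ℝ} (hu : 0 < u) (hd : 1 ≤ Δd) {σ : ℕ → Req n} {m : ℕ}
    (hσ : Valid u Δb Δd Δr σ m) (S : Finset ℕ) (hS : Feas u σ m S) (k : Bool × ℕ × ℤ) (z : ℤ) :
    ∑ i ∈ S.filter (fun i => (itmA u Δb Δd Δr σ i).key = k ∧ z ∈ (itmA u Δb Δd Δr σ i).cells),
      (itmA u Δb Δd Δr σ i).w ≤ 4 := by
  set F := S.filter (fun i => (itmA u Δb Δd Δr σ i).key = k ∧ z ∈ (itmA u Δb Δd Δr σ i).cells) with hF
  rcases F.eq_empty_or_nonempty with hE | hne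
  · rw [hE, Finset.sum_empty]
    norm_num
  have hSm : ∀ i ∈ S, i < m := fun i hi => Finset.mem_range.1 (hS.1 hi)
  obtain ⟨y, hyF, hymax⟩ := Finset.exists_max_image F id hne
  have hy := hyF
  rw [hF, Finset.mem_filter] at hy
  obtain ⟨hyS, hyk, hyz⟩ := hy
  have hym := hSm y hyS
  -- the cell is an edge
  have hz0 : 0 ≤ z := by
    rw [Item.cells, Finset.mem_Ico] at hyz
    exact le_trans (Int.natCast_nonneg _) hyz.1
  obtain ⟨e, rfl⟩ := Int.eq_ofNat_of_zero_le hz0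
  have hpath : ∀ i ∈ F, e ∈ (σ i).path := by
    intro i hi
    rw [hF, Finset.mem_filter] at hi
    have h := hi.2.2
    rw [Item.cells, Finset.mem_Ico] at h
    rw [Req.path, Finset.mem_Ico]
    exact ⟨Int.ofNat_le.1 h.1, Int.ofNat_lt.1 h.2⟩
  have hact : ∀ i ∈ F, (σ i).Active (σ y).arr := by
    intro i hi
    have hiy : i ≤ y := hymax i hi
    rw [hF, Finset.mem_filter] at hi
    have him := hSm i hi.1
    obtain ⟨hD, hi1, hi2⟩ := dcl_spec hd hσ him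
    have hkk : (itmA u Δb Δd Δr σ i).key = (itmA u Δb Δd Δr σ y).key := hi.2.1.trans hyk.symm
    have hc : dcl Δd σ i = dcl Δd σ y := congrArg (fun t => t.2.1) hkk
    have he : epo Δd σ i = epo Δd σ y := congrArg (fun t => t.2.2) hkk
    have hP : 0 < dmin Δd σ * 2 ^ dcl Δd σ y := by positivity
    refine ⟨hσ.arr_mono i y hiy hym, ?_⟩
    rw [hc] at hi1
    unfold epo at he
    rw [hc] at he
    have h2 := Int.floor_le ((σ i).arr / (dmin Δd σ * 2 ^ dcl Δd σ y))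
    have h3 := Int.lt_floor_add_one ((σ y).arr / (dmin Δd σ * 2 ^ dcl Δd σ y))
    rw [he] at h2
    have h4 : (σ y).arr / (dmin Δd σ * 2 ^ dcl Δd σ y) - (σ i).arr / (dmin Δd σ * 2 ^ dcl Δd σ y) < 1 := by
      linarith
    rw [← sub_div, div_lt_iff₀ hP] at h4
    linarith
  have hsum : ∑ i ∈ F, (σ i).r ≤ u := by
    refine le_trans ?_ (hS.2 e (σ y).arr)
    apply Finset.sum_le_sum_of_subset_of_nonneg
    · intro i hi
      rw [Finset.mem_filter]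
      exact ⟨Finset.mem_of_mem_filter i (hF ▸ hi), hpath i hi, hact i hi⟩
    · intro i hi _
      rw [Finset.mem_filter] at hi
      exact (hσ.r_pos i (hSm i hi.1)).le
  have hw : ∀ i ∈ F, (itmA u Δb Δd Δr σ i).w ≤ 4 / u * (σ i).r := by
    intro i hi
    show wgt u (σ i) ≤ _
    unfold wgt
    split_ifs with h
    · rw [div_mul_eq_mul_div, le_div_iff₀ hu]
      linarith
    · rw [div_mul_eq_mul_div]
  calc ∑ i ∈ F, (itmA u Δb Δd Δr σ i).w ≤ ∑ i ∈ F, 4 / u * (σ i).r := Finset.sum_le_sum hw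
    _ = 4 / u * ∑ i ∈ F, (σ i).r := by rw [Finset.mul_sum]
    _ ≤ 4 / u * u := by
      apply mul_le_mul_of_nonneg_left hsum
      positivity
    _ = 4 := by field_simp

end Pool.Agent.MPc98431
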