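import Pool.Agent.Lib.MP_c98431_lc.InstDefs

/-!
# JOB InstB: reduction B (dyadic separator edges, time cells)
-/

set_option autoImplicit false

open Finset

namespace Pool.Agent.MPc98431

variable {n : ℕ}

/-- Between two different edges of the same order there is an edge of greater order
(`a + 1 = 2^v (2 a' + 1)`, `b + 1 = 2^v (2 b' + 1)`, `a' < b'`: take `c + 1 = 2^v (2 a' + 2)`). -/
theorem exists_between {a b : ℕ} (hab : a < b) (h : ord2 a = ord2 b) :
    ∃ c, a < c ∧ c < b ∧ ord2 a < ord2 c := by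
  have hfact : Fact (Nat.Prime 2) := ⟨Nat.prime_two⟩
  unfold ord2 at h
  set v := padicValNat 2 (a + 1) with hv
  have hva : ¬ 2 ^ (v + 1) ∣ (a + 1) := pow_succ_padicValNat_not_dvd (by omega)
  have hvb : ¬ 2 ^ (v + 1) ∣ (b + 1) := by
    rw [h]
    exact pow_succ_padicValNat_not_dvd (by omega)
  obtain ⟨a1, ha1⟩ : 2 ^ v ∣ (a + 1) := pow_padicValNat_dvd
  obtain ⟨b1, hb1⟩ : 2 ^ v ∣ (b + 1) := by
    rw [h]
    exact pow_padicValNat_dvd
  have hodd_a : a1 % 2 = 1 := by
    by_contra hcon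
    apply hva
    have : a1 = 2 * (a1 / 2) := by omega
    rw [ha1, this, pow_succ, ← mul_assoc]
    exact dvd_mul_right _ _
  have hodd_b : b1 % 2 = 1 := by
    by_contra hcon
    apply hvb
    have : b1 = 2 * (b1 / 2) := by omega
    rw [hb1, this, pow_succ, ← mul_assoc]
    exact dvd_mul_right _ _
  have hpos : 0 < 2 ^ v := by positivity
  have hlt : a1 < b1 := by
    have h1 : 2 ^ v * a1 < 2 ^ v * b1 := by omega
    exact lt_of_mul_lt_mul_left h1 (Nat.zero_le _)
  have hlt2 : a1 + 2 ≤ b1 := by omega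
  refine ⟨a + 2 ^ v, by omega, ?_, ?_⟩
  · have h2 : 2 ^ v * (a1 + 2) ≤ 2 ^ v * b1 := Nat.mul_le_mul_left _ hlt2
    have h3 : 2 ^ v * (a1 + 2) = 2 ^ v * a1 + 2 * 2 ^ v := by ring
    omega
  · have h4 : a + 2 ^ v + 1 = 2 ^ v * (a1 + 1) := by
      have : 2 ^ v * (a1 + 1) = 2 ^ v * a1 + 2 ^ v := by ring
      omega
    have h5 : 2 ^ (v + 1) ∣ (a + 2 ^ v + 1) := by
      have : a1 + 1 = 2 * ((a1 + 1) / 2) := by omega
      rw [h4, this, pow_succ, ← mul_assoc]
      exact dvd_mul_right _ _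
    have h6 : v + 1 ≤ padicValNat 2 (a + 2 ^ v + 1) :=
      (padicValNat_dvd_iff_le (by omega)).1 h5
    unfold ord2
    omega

theorem sepE_spec (x : Req n) (h : x.path.Nonempty) :
    ∃ c ∈ x.path, sepE x = some c ∧ ∀ e ∈ x.path, ord2 e ≤ ord2 c := by
  have hs := Classical.choose_spec (Finset.exists_max_image x.path ord2 h)
  refine ⟨Classical.choose (Finset.exists_max_image x.path ord2 h), hs.1, ?_, hs.2⟩
  unfold sepE
  rw [dif_pos h]

private theorem sepE_none (x : Req n) (h : ¬ x.path.Nonempty) : sepE x = none := by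
  unfold sepE
  rw [dif_neg h]

private theorem path_lt (x : Req n) {c : ℕ} (hc : c ∈ x.path) : c + 1 < n := by
  unfold Req.path at hc
  rw [Finset.mem_Ico] at hc
  have h1 := x.s.2
  have h2 := x.t.2
  omega

/-- `ord2 e ≤ Nat.log 2 (e+1)`, `e + 1 ≤ n`. -/
theorem clsB_lt {u Δb Δd Δr : ℝ} (σ : ℕ → Req n) (j : ℕ) :
    clsB (itmB u Δb Δd Δr σ j).key < Nat.log 2 n + 1 := by
  unfold clsB itmB
  simp only
  by_cases h : (σ j).path.Nonempty
  · obtain ⟨c, hc, hcs, -⟩ := sepE_spec (σ j) h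
    rw [hcs]
    simp only [Option.elim_some]
    have h1 : ord2 c ≤ Nat.log 2 (c + 1) := padicValNat_le_nat_log _
    have h2 : Nat.log 2 (c + 1) ≤ Nat.log 2 n := Nat.log_mono_right (path_lt _ hc).le
    omega
  · rw [sepE_none _ h]
    simp

/-- Two paths with a common edge whose separator edges have the same order have the same separator edge
(otherwise `exists_between` gives an edge of greater order in one of the paths). -/
theorem itmB_sep {u Δb Δd Δr : ℝ} {σ : ℕ → Req n} {i j e : ℕ}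
    (hei : e ∈ (σ i).path) (hej : e ∈ (σ j).path)
    (hcls : clsB (itmB u Δb Δd Δr σ i).key = clsB (itmB u Δb Δd Δr σ j).key)
    (hlarge : (itmB u Δb Δd Δr σ i).key.1 = true ↔ (itmB u Δb Δd Δr σ j).key.1 = true) :
    (itmB u Δb Δd Δr σ i).key = (itmB u Δb Δd Δr σ j).key := by
  obtain ⟨c, hc, hcs, hcm⟩ := sepE_spec (σ i) ⟨e, hei⟩
  obtain ⟨c', hc', hcs', hcm'⟩ := sepE_spec (σ j) ⟨e, hej⟩
  have h1 : (itmB u Δb Δd Δr σ i).key.2 = some c := hcs
  have h2 : (itmB u Δb Δd Δr σ j).key.2 = some c' := hcs'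
  have h3 : ord2 c = ord2 c' := by
    unfold clsB at hcls
    rw [h1, h2] at hcls
    simpa using hcls
  have key : c = c' := by
    unfold Req.path at *
    rw [Finset.mem_Ico] at hei hej hc hc'
    rcases lt_trichotomy c c' with hlt | heq | hgt
    · exfalso
      obtain ⟨d, hd1, hd2, hd3⟩ := exists_between hlt h3
      by_cases hde : d < e
      · have := hcm d (by rw [Finset.mem_Ico]; omega)
        omega
      · have := hcm' d (by rw [Finset.mem_Ico]; omega)
        omega
    · exact heq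
    · exfalso
      obtain ⟨d, hd1, hd2, hd3⟩ := exists_between hgt h3.symm
      by_cases hde : d < e
      · have := hcm' d (by rw [Finset.mem_Ico]; omega)
        omega
      · have := hcm d (by rw [Finset.mem_Ico]; omega)
        omega
  refine Prod.ext ?_ ?_
  · exact Bool.eq_iff_iff.2 hlarge
  · rw [h1, h2, key]

private theorem dmin_pos {u Δb Δd Δr : ℝ} (hd : 1 ≤ Δd) {σ : ℕ → Req n} {m : ℕ}
    (hσ : Valid u Δb Δd Δr σ m) {j : ℕ} (hj : j < m) : 0 < dmin Δd σ := by
  unfold dmin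
  have := hσ.d_pos 0 (by omega)
  positivity

private theorem dmin_le {u Δb Δd Δr : ℝ} (hd : 1 ≤ Δd) {σ : ℕ → Req n} {m : ℕ}
    (hσ : Valid u Δb Δd Δr σ m) {j : ℕ} (hj : j < m) : dmin Δd σ ≤ (σ j).d := by
  unfold dmin
  rw [div_le_iff₀ (by linarith)]
  have := hσ.d_range 0 (by omega) j hj
  linarith

/-- the cell of the time `τ` -/
theorem itmB_cell {u Δb Δd Δr : ℝ} (hd : 1 ≤ Δd) {σ : ℕ → Req n} {m : ℕ}
    (hσ : Valid u Δb Δd Δr σ m) {j e : ℕ} (hj : j < m) (he : e ∈ (σ j).path) {τ : ℝ}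
    (ht : (σ j).Active τ) : ⌊τ / dmin Δd σ⌋ ∈ (itmB u Δb Δd Δr σ j).cells := by
  have hD := dmin_pos hd hσ hj
  have hne : (σ j).path.Nonempty := ⟨e, he⟩
  unfold Item.cells itmB
  simp only
  rw [if_pos hne, if_pos hne, Finset.mem_Ico]
  obtain ⟨h1, h2⟩ := ht
  constructor
  · apply Int.floor_le_floor
    exact div_le_div_of_nonneg_right h1 hD.le
  · rw [Int.lt_ceil]
    refine lt_of_le_of_lt (Int.floor_le _) ?_
    exact div_lt_div_of_pos_right h2 hD

private theorem wgt_le {u : ℝ} (hu : 0 < u) (x : Req n) : wgt u x ≤ 4 / u * x.r := by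
  unfold wgt
  split_ifs with h
  · rw [div_mul_eq_mul_div, le_div_iff₀ hu]
    linarith
  · rw [div_mul_eq_mul_div]

private theorem active_or {u Δb Δd Δr : ℝ} (hd : 1 ≤ Δd) {σ : ℕ → Req n} {m : ℕ}
    (hσ : Valid u Δb Δd Δr σ m) {j : ℕ} (hj : j < m) {z : ℤ}
    (hz : z ∈ (itmB u Δb Δd Δr σ j).cells) :
    (σ j).path.Nonempty ∧
      ((σ j).Active (z * dmin Δd σ) ∨ (σ j).Active ((z + 1) * dmin Δd σ)) := by
  have hD := dmin_pos hd hσ hj
  have hDle := dmin_le hd hσ hj
  unfold Item.cells itmB at hz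
  simp only at hz
  by_cases hne : (σ j).path.Nonempty
  · refine ⟨hne, ?_⟩
    rw [if_pos hne, if_pos hne, Finset.mem_Ico] at hz
    obtain ⟨h1, h2⟩ := hz
    have h3 : (σ j).arr / dmin Δd σ < z + 1 := by
      have := Int.lt_floor_add_one ((σ j).arr / dmin Δd σ)
      have h1' : ((⌊(σ j).arr / dmin Δd σ⌋ : ℤ) : ℝ) ≤ (z : ℝ) := by exact_mod_cast h1
      linarith
    rw [div_lt_iff₀ hD] at h3
    have h4 : (z : ℝ) < ((σ j).arr + (σ j).d) / dmin Δd σ := Int.lt_ceil.1 h2
    rw [lt_div_iff₀ hD] at h4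
    by_cases h5 : (σ j).arr ≤ z * dmin Δd σ
    · left
      exact ⟨h5, h4⟩
    · right
      refine ⟨h3.le, ?_⟩
      push Not at h5
      nlinarith
  · rw [if_neg hne, if_neg hne] at hz
    simp at hz

open Classical in
/-- Every request whose interval of cells contains `z` is active at the time `z D` or at the time `(z+1) D`
(`D = dmin ≤ d_j`), and all requests with the key `(_, some c)` use the edge `c`.  So the total bandwidth is at most
`2u`, the total weight at most `8`.  (Key `(_, none)`: no cells.) -/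
theorem itmB_opt {u Δb Δd Δr : ℝ} (hu : 0 < u) (hd : 1 ≤ Δd) {σ : ℕ → Req n} {m : ℕ}
    (hσ : Valid u Δb Δd Δr σ m) (S : Finset ℕ) (hS : Feas u σ m S) (k : Bool × Option ℕ) (z : ℤ) :
    ∑ i ∈ S.filter (fun i => (itmB u Δb Δd Δr σ i).key = k ∧ z ∈ (itmB u Δb Δd Δr σ i).cells),
      (itmB u Δb Δd Δr σ i).w ≤ 8 := by
  obtain ⟨hSm, hcap⟩ := hS
  obtain ⟨kb, ko⟩ := k
  rcases ko with _ | c
  · have hempty : S.filter (fun i => (itmB u Δb Δd Δr σ i).key = (kb, none) ∧
        z ∈ (itmB u Δb Δd Δr σ i).cells) = ∅ := by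
      rw [Finset.filter_eq_empty_iff]
      rintro i hi ⟨h1, h2⟩
      have him : i < m := Finset.mem_range.1 (hSm hi)
      obtain ⟨hne, -⟩ := active_or hd hσ him h2
      obtain ⟨c, hc, hcs, -⟩ := sepE_spec (σ i) hne
      have h3 : (itmB u Δb Δd Δr σ i).key.2 = some c := hcs
      rw [h1] at h3
      simp at h3
    rw [hempty]
    norm_num
  · have hsub : S.filter (fun i => (itmB u Δb Δd Δr σ i).key = (kb, some c) ∧
        z ∈ (itmB u Δb Δd Δr σ i).cells) ⊆
        S.filter (fun j => c ∈ (σ j).path ∧ (σ j).Active (z * dmin Δd σ)) ∪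
        S.filter (fun j => c ∈ (σ j).path ∧ (σ j).Active ((z + 1) * dmin Δd σ)) := by
      intro i hi
      rw [Finset.mem_filter] at hi
      obtain ⟨hiS, h1, h2⟩ := hi
      have him : i < m := Finset.mem_range.1 (hSm hiS)
      obtain ⟨hne, hact⟩ := active_or hd hσ him h2
      obtain ⟨c', hc', hcs, -⟩ := sepE_spec (σ i) hne
      have h3 : (itmB u Δb Δd Δr σ i).key.2 = some c' := hcs
      rw [h1] at h3
      have h4 : c = c' := by simpa using h3
      subst h4
      rw [Finset.mem_union, Finset.mem_filter, Finset.mem_filter]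
      rcases hact with h5 | h5
      · exact Or.inl ⟨hiS, hc', h5⟩
      · exact Or.inr ⟨hiS, hc', h5⟩
    have hrpos : ∀ i ∈ S, 0 ≤ (σ i).r := fun i hi =>
      (hσ.r_pos i (Finset.mem_range.1 (hSm hi))).le
    calc ∑ i ∈ S.filter (fun i => (itmB u Δb Δd Δr σ i).key = (kb, some c) ∧
          z ∈ (itmB u Δb Δd Δr σ i).cells), (itmB u Δb Δd Δr σ i).w
        ≤ ∑ i ∈ S.filter (fun i => (itmB u Δb Δd Δr σ i).key = (kb, some c) ∧
          z ∈ (itmB u Δb Δd Δr σ i).cells), 4 / u * (σ i).r :=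
          Finset.sum_le_sum fun i _ => wgt_le hu (σ i)
      _ ≤ ∑ i ∈ S.filter (fun j => c ∈ (σ j).path ∧ (σ j).Active (z * dmin Δd σ)) ∪
        S.filter (fun j => c ∈ (σ j).path ∧ (σ j).Active ((z + 1) * dmin Δd σ)),
          4 / u * (σ i).r := by
          refine Finset.sum_le_sum_of_subset_of_nonneg hsub fun i hi _ => ?_
          rw [Finset.mem_union, Finset.mem_filter, Finset.mem_filter] at hi
          have hiS : i ∈ S := by
            rcases hi with hi | hi
            · exact hi.1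
            · exact hi.1
          have := hrpos i hiS
          positivity
      _ ≤ ∑ i ∈ S.filter (fun j => c ∈ (σ j).path ∧ (σ j).Active (z * dmin Δd σ)),
            4 / u * (σ i).r +
          ∑ i ∈ S.filter (fun j => c ∈ (σ j).path ∧ (σ j).Active ((z + 1) * dmin Δd σ)),
            4 / u * (σ i).r := by
          rw [← Finset.sum_union_inter]
          have h0 : 0 ≤ ∑ i ∈ S.filter (fun j => c ∈ (σ j).path ∧
              (σ j).Active (z * dmin Δd σ)) ∩
              S.filter (fun j => c ∈ (σ j).path ∧ (σ j).Active ((z + 1) * dmin Δd σ)),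
              4 / u * (σ i).r := by
            refine Finset.sum_nonneg fun i hi => ?_
            rw [Finset.mem_inter, Finset.mem_filter] at hi
            have := hrpos i hi.1.1
            positivity
          linarith
      _ ≤ 4 / u * u + 4 / u * u := by
          rw [← Finset.mul_sum, ← Finset.mul_sum]
          have h4u : 0 ≤ 4 / u := by positivity
          exact add_le_add (mul_le_mul_of_nonneg_left (hcap c _) h4u)
            (mul_le_mul_of_nonneg_left (hcap c _) h4u)
      _ = 8 := by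
          field_simp
          norm_num

end Pool.Agent.MPc98431
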