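import Pool.Agent.Lib.MP_c98431_lc.InstDefs

/-!
# JOB InstW: weights, normalised benefits, non-anticipation (both reductions)
-/

set_option autoImplicit false

open Finset

namespace Pool.Agent.MPc98431

variable {n : ℕ}

/-- See the docstring of `WB`. -/
theorem WB_of_valid {u Δb Δd Δr : ℝ} (hu : 0 < u) (hb : 1 ≤ Δb) (hr : 1 ≤ Δr) {σ : ℕ → Req n} {m : ℕ}
    (hσ : Valid u Δb Δd Δr σ m) : WB u Δb Δr σ m := by
  intro j hj
  have h0 : 0 < m := by omega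
  have hb0 := hσ.b_pos 0 h0
  have hbj := hσ.b_pos j hj
  have hr0 := hσ.r_pos 0 h0
  have hrj := hσ.r_pos j hj
  have hb1 := hσ.b_range 0 h0 j hj
  have hb2 := hσ.b_range j hj 0 h0
  have hr1 := hσ.r_range 0 h0 j hj
  have hr2 := hσ.r_range j hj 0 h0
  have hΔb : 0 < Δb := by linarith
  have hΔr : 0 < Δr := by linarith
  by_cases hz : u < 4 * (σ j).r
  · have hw : wgt u (σ j) = 1 := by
      unfold wgt
      rw [if_pos hz]
    have ht : thb u Δb Δr σ (decide (u < 4 * (σ j).r)) = Δb / (σ 0).b := by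
      unfold thb
      rw [decide_eq_true hz, if_pos rfl]
    rw [hw, ht]
    refine ⟨one_pos, le_rfl, ?_, ?_⟩
    · rw [div_mul_eq_mul_div, le_div_iff₀ hb0, one_mul]
      exact hb1
    · rw [div_mul_eq_mul_div, div_le_iff₀ hb0, mul_one]
      have h1 : Δb * (σ j).b ≤ Δb * (Δb * (σ 0).b) := mul_le_mul_of_nonneg_left hb2 hΔb.le
      have h2 : (1 : ℝ) ≤ Δr ^ 2 := one_le_pow₀ hr
      have h3 : 0 ≤ Δb ^ 2 * (σ 0).b := by positivity
      have h4 : Δb ^ 2 * (σ 0).b * 1 ≤ Δb ^ 2 * (σ 0).b * Δr ^ 2 :=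
        mul_le_mul_of_nonneg_left h2 h3
      calc Δb * (σ j).b ≤ Δb * (Δb * (σ 0).b) := h1
        _ = Δb ^ 2 * (σ 0).b * 1 := by ring
        _ ≤ Δb ^ 2 * (σ 0).b * Δr ^ 2 := h4
        _ = Δb ^ 2 * Δr ^ 2 * (σ 0).b := by ring
  · have hw : wgt u (σ j) = 4 * (σ j).r / u := by
      unfold wgt
      rw [if_neg hz]
    have ht : thb u Δb Δr σ (decide (u < 4 * (σ j).r)) =
        4 * ((σ 0).r / u) * Δr * Δb / (σ 0).b := by
      unfold thb
      rw [decide_eq_false hz, if_neg (by simp)]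
    rw [hw, ht]
    rw [not_lt] at hz
    have e1 : 4 * ((σ 0).r / u) * Δr * Δb / (σ 0).b * (σ j).b =
        (4 * (Δr * (σ 0).r) * (Δb * (σ j).b)) / (u * (σ 0).b) := by
      field_simp
    have hub : 0 < u * (σ 0).b := mul_pos hu hb0
    refine ⟨by positivity, (div_le_one hu).2 hz, ?_, ?_⟩
    · rw [e1, div_le_div_iff₀ hu hub]
      have h1 : (σ j).r * (σ 0).b ≤ (Δr * (σ 0).r) * (Δb * (σ j).b) :=
        mul_le_mul hr2 hb1 hb0.le (by positivity)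
      have h2 : (4 * u) * ((σ j).r * (σ 0).b) ≤ (4 * u) * ((Δr * (σ 0).r) * (Δb * (σ j).b)) :=
        mul_le_mul_of_nonneg_left h1 (by positivity)
      calc 4 * (σ j).r * (u * (σ 0).b) = (4 * u) * ((σ j).r * (σ 0).b) := by ring
        _ ≤ _ := h2
        _ = _ := by ring
    · rw [e1, div_le_iff₀ hub]
      have h1 : (σ 0).r * (σ j).b ≤ (Δr * (σ j).r) * (Δb * (σ 0).b) :=
        mul_le_mul hr1 hb2 hbj.le (by positivity)
      have h2 : (4 * Δr * Δb) * ((σ 0).r * (σ j).b) ≤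
          (4 * Δr * Δb) * ((Δr * (σ j).r) * (Δb * (σ 0).b)) :=
        mul_le_mul_of_nonneg_left h1 (by positivity)
      calc 4 * (Δr * (σ 0).r) * (Δb * (σ j).b) = (4 * Δr * Δb) * ((σ 0).r * (σ j).b) := by ring
        _ ≤ _ := h2
        _ = _ := by field_simp

theorem thb_pos {u Δb Δd Δr : ℝ} (hu : 0 < u) (hb : 1 ≤ Δb) (hr : 1 ≤ Δr) {σ : ℕ → Req n} {m : ℕ}
    (hσ : Valid u Δb Δd Δr σ m) (hm : 0 < m) (z : Bool) : 0 < thb u Δb Δr σ z := by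
  have hb0 := hσ.b_pos 0 hm
  have hr0 := hσ.r_pos 0 hm
  have hΔb : 0 < Δb := by linarith
  have hΔr : 0 < Δr := by linarith
  unfold thb
  split_ifs
  · positivity
  · positivity

theorem itmA_online (u Δb Δd Δr : ℝ) (σ σ' : ℕ → Req n) (j : ℕ) (h : ∀ i ≤ j, σ i = σ' i) :
    itmA u Δb Δd Δr σ j = itmA u Δb Δd Δr σ' j := by
  have h0 := h 0 (Nat.zero_le j)
  have hj := h j le_rfl
  unfold itmA epo dcl dmin thb
  rw [h0, hj]

theorem itmB_online (u Δb Δd Δr : ℝ) (σ σ' : ℕ → Req n) (j : ℕ) (h : ∀ i ≤ j, σ i = σ' i) :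
    itmB u Δb Δd Δr σ j = itmB u Δb Δd Δr σ' j := by
  have h0 := h 0 (Nat.zero_le j)
  have hj := h j le_rfl
  unfold itmB dmin thb
  rw [h0, hj]

/-- `w · 1 ≤ w · #cells ≤ B ≤ M w` (reduction A): `#cells ≤ n`. -/
theorem itmA_good {u Δb Δd Δr : ℝ} (hu : 0 < u) (hb : 1 ≤ Δb) (hr : 1 ≤ Δr) {σ : ℕ → Req n} {m : ℕ}
    (hσ : Valid u Δb Δd Δr σ m) : Good (itmA u Δb Δd Δr σ) (n * Δb ^ 2 * Δr ^ 2) m := by
  intro j hj
  obtain ⟨h1, h2, h3, h4⟩ := WB_of_valid hu hb hr hσ j hj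
  have hcard : (((itmA u Δb Δd Δr σ j).cells.card : ℕ) : ℝ) ≤ n := by
    have h5 : (itmA u Δb Δd Δr σ j).cells.card ≤ n := by
      unfold Item.cells itmA
      rw [Int.card_Ico]
      have h6 := (σ j).s.isLt
      have h7 := (σ j).t.isLt
      have h8 : max ((σ j).s : ℕ) (σ j).t < n := max_lt h6 h7
      simp only
      omega
    exact_mod_cast h5
  have hn0 : (0 : ℝ) ≤ n := Nat.cast_nonneg n
  refine ⟨h1, h2, ?_, ?_⟩
  · change wgt u (σ j) * _ ≤ n * thb u Δb Δr σ (decide (u < 4 * (σ j).r)) * (σ j).b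
    calc wgt u (σ j) * _ ≤ wgt u (σ j) * n := mul_le_mul_of_nonneg_left hcard h1.le
      _ = n * wgt u (σ j) := mul_comm _ _
      _ ≤ n * (thb u Δb Δr σ (decide (u < 4 * (σ j).r)) * (σ j).b) :=
        mul_le_mul_of_nonneg_left h3 hn0
      _ = _ := by ring
  · change n * thb u Δb Δr σ (decide (u < 4 * (σ j).r)) * (σ j).b ≤ _ * wgt u (σ j)
    calc n * thb u Δb Δr σ (decide (u < 4 * (σ j).r)) * (σ j).b
        = n * (thb u Δb Δr σ (decide (u < 4 * (σ j).r)) * (σ j).b) := by ring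
      _ ≤ n * (Δb ^ 2 * Δr ^ 2 * wgt u (σ j)) := mul_le_mul_of_nonneg_left h4 hn0
      _ = _ := by ring

/-- Reduction B: `#cells ≤ d_j/D + 2 ≤ Δd² + 2 ≤ 3 Δd²` (`D = d_0/Δd`, `d_j ≤ Δd d_0`). -/
theorem itmB_good {u Δb Δd Δr : ℝ} (hu : 0 < u) (hb : 1 ≤ Δb) (hd : 1 ≤ Δd) (hr : 1 ≤ Δr)
    {σ : ℕ → Req n} {m : ℕ} (hσ : Valid u Δb Δd Δr σ m) :
    Good (itmB u Δb Δd Δr σ) (3 * Δd ^ 2 * Δb ^ 2 * Δr ^ 2) m := by
  intro j hj
  obtain ⟨h1, h2, h3, h4⟩ := WB_of_valid hu hb hr hσ j hj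
  have h0 : 0 < m := by omega
  have hd0 := hσ.d_pos 0 h0
  have hdj := hσ.d_pos j hj
  have hdr := hσ.d_range j hj 0 h0
  have hΔd : 0 < Δd := by linarith
  have hD : 0 < dmin Δd σ := by
    unfold dmin
    positivity
  have hcard : (((itmB u Δb Δd Δr σ j).cells.card : ℕ) : ℝ) ≤ 3 * Δd ^ 2 := by
    have h9 : (1 : ℝ) ≤ Δd ^ 2 := one_le_pow₀ hd
    unfold Item.cells itmB
    rw [Int.card_Ico]
    simp only
    split_ifs with hp
    · have h5 : (⌈((σ j).arr + (σ j).d) / dmin Δd σ⌉ : ℝ) <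
          ((σ j).arr + (σ j).d) / dmin Δd σ + 1 := Int.ceil_lt_add_one _
      have h6 : (σ j).arr / dmin Δd σ - 1 < (⌊(σ j).arr / dmin Δd σ⌋ : ℝ) :=
        Int.sub_one_lt_floor _
      have h7 : (σ j).d / dmin Δd σ ≤ Δd ^ 2 := by
        rw [div_le_iff₀ hD]
        unfold dmin
        calc (σ j).d ≤ Δd * (σ 0).d := hdr
          _ = Δd ^ 2 * ((σ 0).d / Δd) := by field_simp
      have h8 : ((σ j).arr + (σ j).d) / dmin Δd σ =
          (σ j).arr / dmin Δd σ + (σ j).d / dmin Δd σ := add_div _ _ _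
      have h10 : ((⌈((σ j).arr + (σ j).d) / dmin Δd σ⌉ - ⌊(σ j).arr / dmin Δd σ⌋ : ℤ) : ℝ) ≤
          3 * Δd ^ 2 := by
        push_cast
        linarith
      have h11 : (((⌈((σ j).arr + (σ j).d) / dmin Δd σ⌉ -
          ⌊(σ j).arr / dmin Δd σ⌋).toNat : ℕ) : ℝ) =
          ((max (⌈((σ j).arr + (σ j).d) / dmin Δd σ⌉ - ⌊(σ j).arr / dmin Δd σ⌋) 0 : ℤ) : ℝ) := by
        rw [← Int.toNat_eq_max]
        push_cast
        rfl
      rw [h11]
      push_cast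
      push_cast at h10
      exact max_le h10 (by positivity)
    · simp only [sub_self, Int.toNat_zero, Nat.cast_zero]
      positivity
  have hn0 : (0 : ℝ) ≤ 3 * Δd ^ 2 := by positivity
  refine ⟨h1, h2, ?_, ?_⟩
  · change wgt u (σ j) * _ ≤
      3 * Δd ^ 2 * thb u Δb Δr σ (decide (u < 4 * (σ j).r)) * (σ j).b
    calc wgt u (σ j) * _ ≤ wgt u (σ j) * (3 * Δd ^ 2) := mul_le_mul_of_nonneg_left hcard h1.le
      _ = (3 * Δd ^ 2) * wgt u (σ j) := mul_comm _ _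
      _ ≤ (3 * Δd ^ 2) * (thb u Δb Δr σ (decide (u < 4 * (σ j).r)) * (σ j).b) :=
        mul_le_mul_of_nonneg_left h3 hn0
      _ = _ := by ring
  · change 3 * Δd ^ 2 * thb u Δb Δr σ (decide (u < 4 * (σ j).r)) * (σ j).b ≤ _ * wgt u (σ j)
    calc 3 * Δd ^ 2 * thb u Δb Δr σ (decide (u < 4 * (σ j).r)) * (σ j).b
        = 3 * Δd ^ 2 * (thb u Δb Δr σ (decide (u < 4 * (σ j).r)) * (σ j).b) := by ring
      _ ≤ 3 * Δd ^ 2 * (Δb ^ 2 * Δr ^ 2 * wgt u (σ j)) := mul_le_mul_of_nonneg_left h4 hn0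
      _ = _ := by ring

end Pool.Agent.MPc98431
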