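import Mathlib

/-!
# JOB Numer: the numerical bounds
-/

set_option autoImplicit false

namespace Pool.Agent.MPc98431

/-- the number of levels -/
noncomputable def lvls (M : ℝ) : ℕ := ⌈Real.logb 2 (1 + M)⌉₊ + 1

theorem lvls_spec (M : ℝ) (hM : 0 ≤ M) : 1 ≤ lvls M ∧ Real.logb 2 (1 + M) + 1 ≤ lvls M := by
  unfold lvls
  refine ⟨Nat.le_add_left _ _, ?_⟩
  push_cast
  linarith [Nat.le_ceil (Real.logb 2 (1 + M))]

private theorem Numer_logb (y : ℝ) (hy : 0 ≤ Real.log y) : Real.logb 2 y ≤ 3 / 2 * Real.log y := by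
  unfold Real.logb
  have h2 := Real.log_two_gt_d9
  rw [div_le_iff₀ (by linarith)]
  nlinarith

private theorem Numer_lvls (M : ℝ) (hM : 1 ≤ M) : (lvls M : ℝ) ≤ 3 + Real.logb 2 M := by
  unfold lvls
  have h1 : Real.logb 2 (1 + M) ≤ 1 + Real.logb 2 M := by
    have h2 : Real.logb 2 (1 + M) ≤ Real.logb 2 (2 * M) :=
      Real.logb_le_logb_of_le (by norm_num) (by linarith) (by linarith)
    rw [Real.logb_mul (by norm_num) (by linarith), Real.logb_self_eq_one (by norm_num)] at h2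
    exact h2
  have h3 : 0 ≤ Real.logb 2 (1 + M) := Real.logb_nonneg (by norm_num) (by linarith)
  have h4 := Nat.ceil_lt_add_one h3
  push_cast
  linarith

private theorem Numer_natlog (m : ℕ) (hm : 1 ≤ m) (y : ℝ) (hmy : (m : ℝ) ≤ y) :
    (Nat.log 2 m : ℝ) ≤ Real.logb 2 y := by
  have hm0 : (1 : ℝ) ≤ m := by exact_mod_cast hm
  have h1 : ((2 : ℕ) ^ Nat.log 2 m : ℕ) ≤ m := Nat.pow_log_le_self 2 (by omega)
  have h2 : (2 : ℝ) ^ (Nat.log 2 m) ≤ y := by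
    have : ((2 : ℕ) ^ Nat.log 2 m : ℕ) ≤ (m : ℝ) := by exact_mod_cast h1
    push_cast at this
    linarith
  rw [Real.le_logb_iff_rpow_le (by norm_num) (by linarith), Real.rpow_natCast]
  exact h2

/-- Reduction A: `(1 + 8) · 6 · 3 (⌊log₂ Δd²⌋ + 1) · P ≤ C (1 + log Δd) (log n + log Δb + log Δr)`,
as `1 + M ≤ 2 n Δb² Δr²`, `log n ≥ log 2 > 0.69`; `P ≤ log₂(1+M) + 2`.  (`C = 10^4` is enough.) -/
theorem numer_A (n : ℕ) (Δb Δd Δr : ℝ) (hn : 2 ≤ n) (hb : 1 ≤ Δb) (hd : 1 ≤ Δd) (hr : 1 ≤ Δr) :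
    (1 + 2 * 4) * (6 * ((3 * (Nat.log 2 ⌊Δd ^ 2⌋₊ + 1) : ℕ) : ℝ) * lvls (n * Δb ^ 2 * Δr ^ 2)) ≤
      10 ^ 4 * ((1 + Real.log Δd) * (Real.log n + Real.log Δb + Real.log Δr)) := by
  have hnR : (2 : ℝ) ≤ n := by exact_mod_cast hn
  have lb := Real.log_nonneg hb
  have ld := Real.log_nonneg hd
  have lr := Real.log_nonneg hr
  have ln : (0.69 : ℝ) ≤ Real.log n := by
    have h1 := Real.log_two_gt_d9
    have h2 : Real.log 2 ≤ Real.log n := Real.log_le_log (by norm_num) hnR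
    linarith
  have h1 : (Nat.log 2 ⌊Δd ^ 2⌋₊ : ℝ) ≤ 3 * Real.log Δd := by
    have h2 : 1 ≤ ⌊Δd ^ 2⌋₊ := by
      apply Nat.le_floor
      rw [Nat.cast_one]
      nlinarith
    have h3 := Numer_natlog ⌊Δd ^ 2⌋₊ h2 (Δd ^ 2) (Nat.floor_le (by positivity))
    have h4 : Real.log (Δd ^ 2) = 2 * Real.log Δd := by
      rw [Real.log_pow]
      norm_num
    have h5 := Numer_logb (Δd ^ 2) (by rw [h4]; linarith)
    rw [h4] at h5
    linarith
  have hM : (1 : ℝ) ≤ n * Δb ^ 2 * Δr ^ 2 := by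
    have h2 : (1 : ℝ) ≤ Δb ^ 2 := one_le_pow₀ hb
    have h3 : (1 : ℝ) ≤ Δr ^ 2 := one_le_pow₀ hr
    have h4 : (1 : ℝ) ≤ n * Δb ^ 2 := one_le_mul_of_one_le_of_one_le (by linarith) h2
    exact one_le_mul_of_one_le_of_one_le h4 h3
  have hlogM : Real.log (n * Δb ^ 2 * Δr ^ 2) =
      Real.log n + 2 * Real.log Δb + 2 * Real.log Δr := by
    rw [Real.log_mul (by positivity) (by positivity), Real.log_mul (by positivity) (by positivity),
      Real.log_pow, Real.log_pow]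
    norm_num
  have h6 : (lvls (n * Δb ^ 2 * Δr ^ 2) : ℝ) ≤
      6 * (Real.log n + Real.log Δb + Real.log Δr) := by
    have h7 := Numer_lvls _ hM
    have h8 := Numer_logb (n * Δb ^ 2 * Δr ^ 2) (Real.log_nonneg hM)
    rw [hlogM] at h8
    linarith
  push_cast
  have h9 : (Nat.log 2 ⌊Δd ^ 2⌋₊ : ℝ) + 1 ≤ 3 * (1 + Real.log Δd) := by linarith
  have h10 : ((Nat.log 2 ⌊Δd ^ 2⌋₊ : ℝ) + 1) * lvls (n * Δb ^ 2 * Δr ^ 2) ≤
      (3 * (1 + Real.log Δd)) * (6 * (Real.log n + Real.log Δb + Real.log Δr)) :=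
    mul_le_mul h9 h6 (Nat.cast_nonneg _) (by positivity)
  have h11 : 0 ≤ (1 + Real.log Δd) * (Real.log n + Real.log Δb + Real.log Δr) :=
    mul_nonneg (by linarith) (by linarith)
  nlinarith

/-- Reduction B: `(1 + 16) · 6 · (⌊log₂ n⌋ + 1) · P ≤ C log n (1 + log Δb + log Δd + log Δr)`. -/
theorem numer_B (n : ℕ) (Δb Δd Δr : ℝ) (hn : 2 ≤ n) (hb : 1 ≤ Δb) (hd : 1 ≤ Δd) (hr : 1 ≤ Δr) :
    (1 + 2 * 8) * (6 * ((Nat.log 2 n + 1 : ℕ) : ℝ) * lvls (3 * Δd ^ 2 * Δb ^ 2 * Δr ^ 2)) ≤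
      10 ^ 4 * (Real.log n * (1 + Real.log Δb + Real.log Δd + Real.log Δr)) := by
  have hnR : (2 : ℝ) ≤ n := by exact_mod_cast hn
  have lb := Real.log_nonneg hb
  have ld := Real.log_nonneg hd
  have lr := Real.log_nonneg hr
  have ln : (0.69 : ℝ) ≤ Real.log n := by
    have h1 := Real.log_two_gt_d9
    have h2 : Real.log 2 ≤ Real.log n := Real.log_le_log (by norm_num) hnR
    linarith
  have h1 : (Nat.log 2 n : ℝ) + 1 ≤ 3 * Real.log n := by
    have h3 := Numer_natlog n (by omega) n le_rfl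
    have h5 := Numer_logb n (by linarith)
    linarith
  have hM' : (1 : ℝ) ≤ Δd ^ 2 * Δb ^ 2 * Δr ^ 2 := by
    have h2 : (1 : ℝ) ≤ Δb ^ 2 := one_le_pow₀ hb
    have h3 : (1 : ℝ) ≤ Δr ^ 2 := one_le_pow₀ hr
    have h5 : (1 : ℝ) ≤ Δd ^ 2 := one_le_pow₀ hd
    have h4 : (1 : ℝ) ≤ Δd ^ 2 * Δb ^ 2 := one_le_mul_of_one_le_of_one_le h5 h2
    exact one_le_mul_of_one_le_of_one_le h4 h3
  have hMe : 3 * Δd ^ 2 * Δb ^ 2 * Δr ^ 2 = 3 * (Δd ^ 2 * Δb ^ 2 * Δr ^ 2) := by ring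
  have hlogM : Real.log (Δd ^ 2 * Δb ^ 2 * Δr ^ 2) =
      2 * Real.log Δd + 2 * Real.log Δb + 2 * Real.log Δr := by
    rw [Real.log_mul (by positivity) (by positivity), Real.log_mul (by positivity) (by positivity),
      Real.log_pow, Real.log_pow, Real.log_pow]
    norm_num
  have h6 : (lvls (3 * Δd ^ 2 * Δb ^ 2 * Δr ^ 2) : ℝ) ≤
      5 * (1 + Real.log Δb + Real.log Δd + Real.log Δr) := by
    rw [hMe]
    have h7 := Numer_lvls (3 * (Δd ^ 2 * Δb ^ 2 * Δr ^ 2)) (by linarith)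
    have h8 := Numer_logb (Δd ^ 2 * Δb ^ 2 * Δr ^ 2) (Real.log_nonneg hM')
    rw [hlogM] at h8
    rw [Real.logb_mul (by norm_num) (by positivity)] at h7
    have h9 : Real.logb 2 3 ≤ 2 := by
      rw [Real.logb_le_iff_le_rpow (by norm_num) (by norm_num)]
      norm_num
    linarith
  push_cast
  have h10 : ((Nat.log 2 n : ℝ) + 1) * lvls (3 * Δd ^ 2 * Δb ^ 2 * Δr ^ 2) ≤
      (3 * Real.log n) * (5 * (1 + Real.log Δb + Real.log Δd + Real.log Δr)) :=
    mul_le_mul h1 h6 (Nat.cast_nonneg _) (by linarith)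
  have h11 : 0 ≤ Real.log n * (1 + Real.log Δb + Real.log Δd + Real.log Δr) :=
    mul_nonneg (by linarith) (by linarith)
  nlinarith

/-- The minimum of the two bounds. -/
theorem numer_min (n : ℕ) (Δb Δd Δr : ℝ) (hn : 2 ≤ n) (hb : 1 ≤ Δb) (hd : 1 ≤ Δd) (hr : 1 ≤ Δr) :
    (1 + Real.log Δd) * (Real.log n + Real.log Δb + Real.log Δr) ≤
      10 * (min (Real.log n) (1 + Real.log Δd) *
        (Real.log n + Real.log Δb + Real.log Δd + Real.log Δr)) ∨
    Real.log n * (1 + Real.log Δb + Real.log Δd + Real.log Δr) ≤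
      10 * (min (Real.log n) (1 + Real.log Δd) *
        (Real.log n + Real.log Δb + Real.log Δd + Real.log Δr)) := by
  have hnR : (2 : ℝ) ≤ n := by exact_mod_cast hn
  have lb := Real.log_nonneg hb
  have ld := Real.log_nonneg hd
  have lr := Real.log_nonneg hr
  have ln : (0.69 : ℝ) ≤ Real.log n := by
    have h1 := Real.log_two_gt_d9
    have h2 : Real.log 2 ≤ Real.log n := Real.log_le_log (by norm_num) hnR
    linarith
  rcases le_total (1 + Real.log Δd) (Real.log n) with h | h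
  · left
    rw [min_eq_right h]
    have h1 : Real.log n + Real.log Δb + Real.log Δr ≤
        10 * (Real.log n + Real.log Δb + Real.log Δd + Real.log Δr) := by linarith
    have h2 := mul_le_mul_of_nonneg_left h1 (by linarith : 0 ≤ 1 + Real.log Δd)
    linarith
  · right
    rw [min_eq_left h]
    have h1 : 1 + Real.log Δb + Real.log Δd + Real.log Δr ≤
        10 * (Real.log n + Real.log Δb + Real.log Δd + Real.log Δr) := by linarith
    have h2 := mul_le_mul_of_nonneg_left h1 (by linarith : 0 ≤ Real.log n)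
    linarith

end Pool.Agent.MPc98431
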