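import Pool.Agent.Lib.MP_c98431_lc.Defs

/-!
# JOB Perm: permanent calls are a special case of equal durations
-/

set_option autoImplicit false

open Finset

namespace Pool.Agent.MPc98431

variable {n : ℕ}

/-- The sequence with all arrival times `0` and all durations `1`: all requests are active at time `0`. -/
def flat (σ : ℕ → Req n) : ℕ → Req n := fun j => { σ j with arr := 0, d := 1 }

private theorem perm_valid {u Δb Δr : ℝ} {σ : ℕ → Req n} {m : ℕ} (h : ValidP u Δb Δr σ m) :
    Valid u Δb 1 Δr (flat σ) m where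
  arr_mono := fun _ _ _ _ => le_refl _
  r_pos := h.r_pos
  r_le := h.r_le
  d_pos := fun _ _ => one_pos
  b_pos := h.b_pos
  b_range := h.b_range
  d_range := fun _ _ _ _ => by simp [flat]
  r_range := h.r_range

private theorem perm_feas {u Δb Δr : ℝ} {σ : ℕ → Req n} {m : ℕ} (h : ValidP u Δb Δr σ m) (S : Finset ℕ) :
    Feas u (flat σ) m S ↔ FeasP u σ m S := by
  classical
  constructor
  · rintro ⟨h1, h2⟩
    refine ⟨h1, fun e => ?_⟩
    have h3 := h2 e 0
    have h4 : S.filter (fun j => e ∈ (flat σ j).path ∧ (flat σ j).Active 0) =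
        S.filter (fun j => e ∈ (σ j).path) := by
      apply Finset.filter_congr
      intro j _
      constructor
      · exact fun h => h.1
      · intro h
        exact ⟨h, le_refl _, by simp [flat]⟩
    rw [h4] at h3
    exact h3
  · rintro ⟨h1, h2⟩
    refine ⟨h1, fun e τ => ?_⟩
    refine le_trans ?_ (h2 e)
    apply Finset.sum_le_sum_of_subset_of_nonneg
    · intro j hj
      rw [Finset.mem_filter] at hj ⊢
      exact ⟨hj.1, hj.2.1⟩
    · intro j hj _
      exact (h.r_pos j (Finset.mem_range.mp (h1 (Finset.mem_filter.mp hj).1))).le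

/-- Run `A` on the flattened sequence (`acc' σ j = acc (flat σ) j`; same probabilities).  `flat σ` is `Valid` with
`Δd = 1`, `Feas u (flat σ) m S ↔ FeasP u σ m S` (take `τ = 0`; for other `τ` the sum is at most the sum at `0`, as
bandwidths are positive and the active requests form a subset), the gains are the same. -/
theorem perm_of_equal {u Δb Δr ρ : ℝ} (A : RandAlg n) (hA : A.Competitive u Δb 1 Δr ρ) :
    ∃ A' : RandAlg n, A'.CompetitiveP u Δb Δr ρ := by
  let A' : RandAlg n :=
    { Ω := A.Ω
      fin := A.fin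
      p := A.p
      p_nonneg := A.p_nonneg
      p_sum := A.p_sum
      alg := fun ω =>
        { acc := fun σ j => (A.alg ω).acc (flat σ) j
          online := fun σ σ' j h => (A.alg ω).online (flat σ) (flat σ') j
            (fun i hi => by simp [flat, h i hi]) } }
  refine ⟨A', fun σ m hv => ?_⟩
  obtain ⟨h1, h2⟩ := hA (flat σ) m (perm_valid hv)
  refine ⟨fun ω => (perm_feas hv _).mp (h1 ω), fun S hS => ?_⟩
  exact h2 S ((perm_feas hv S).mpr hS)

/-- Monotonicity in the ratio: expected gains of admissible sequences are nonnegative. -/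
theorem competitive_mono {u Δb Δd Δr ρ ρ' : ℝ} (h : ρ ≤ ρ') (A : RandAlg n)
    (hA : A.Competitive u Δb Δd Δr ρ) : A.Competitive u Δb Δd Δr ρ' := by
  intro σ m hv
  obtain ⟨h1, h2⟩ := hA σ m hv
  refine ⟨h1, fun S hS => (h2 S hS).trans ?_⟩
  apply mul_le_mul_of_nonneg_right h
  apply Finset.sum_nonneg
  intro ω _
  apply mul_nonneg (A.p_nonneg ω)
  apply Finset.sum_nonneg
  intro j hj
  exact (hv.b_pos j (Finset.mem_range.mp ((h1 ω).1 hj))).le

end Pool.Agent.MPc98431
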