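import Pool.Agent.Lib.MP_c98431_lc.GenAlg
import Pool.Agent.Lib.MP_c98431_lc.InstW
import Pool.Agent.Lib.MP_c98431_lc.InstA
import Pool.Agent.Lib.MP_c98431_lc.InstB
import Pool.Agent.Lib.MP_c98431_lc.Perm
import Pool.Agent.Lib.MP_c98431_lc.Numer

/-!
# Final assembly
-/

set_option autoImplicit false

open Finset

namespace Pool.Agent.MPc98431

variable {n : ℕ}

/-- Reduction A. -/
noncomputable def redA (n : ℕ) {u Δb Δd Δr : ℝ} (hu : 0 < u) (hb : 1 ≤ Δb) (hd : 1 ≤ Δd) (hr : 1 ≤ Δr)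
    (hn : 0 < n) : Red n u Δb Δd Δr (n * Δb ^ 2 * Δr ^ 2) 4 (3 * (Nat.log 2 ⌊Δd ^ 2⌋₊ + 1)) where
  K := Bool × ℕ × ℤ
  itm := itmA u Δb Δd Δr
  cls := clsA
  large k := k.1 = true
  itm_online := itmA_online u Δb Δd Δr
  good _ _ hσ := itmA_good hu hb hr hσ
  cls_lt _ _ hσ _ hj := clsA_lt hd hσ hj
  w_large σ m hσ j hj h := by
    have h' : u < 4 * (σ j).r := of_decide_eq_true h
    show wgt u (σ j) = 1
    unfold wgt
    rw [if_pos h']
  w_small σ m hσ j hj h := by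
    have h' : ¬ u < 4 * (σ j).r := fun hc => h (decide_eq_true hc)
    show u * wgt u (σ j) = 4 * (σ j).r
    unfold wgt
    rw [if_neg h']
    field_simp
  budget σ m hσ := by
    rcases Nat.eq_zero_or_pos m with hm | hm
    · exact ⟨fun _ => 1, fun _ => one_pos, fun j hj => absurd hj (by omega)⟩
    · refine ⟨fun k => n * thb u Δb Δr σ k.1, fun k => ?_, fun j _ => rfl⟩
      exact mul_pos (by exact_mod_cast hn) (thb_pos hu hb hr hσ hm k.1)
  sep σ m hσ i hi j hj e τ _ _ hti htj hcls hlarge := itmA_sep hd hσ hi hj hti htj hcls hlarge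
  cell σ m hσ e τ := ⟨e, fun j _ he _ => itmA_cell u Δb Δd Δr σ j e he⟩
  opt σ m hσ S hS k z := by
    refine le_trans (le_of_eq ?_) (itmA_opt hu hd hσ S hS k z)
    refine Finset.sum_congr ?_ fun _ _ => rfl
    ext i
    simp only [Finset.mem_filter]

/-- Reduction B. -/
noncomputable def redB (n : ℕ) {u Δb Δd Δr : ℝ} (hu : 0 < u) (hb : 1 ≤ Δb) (hd : 1 ≤ Δd) (hr : 1 ≤ Δr) :
    Red n u Δb Δd Δr (3 * Δd ^ 2 * Δb ^ 2 * Δr ^ 2) 8 (Nat.log 2 n + 1) where
  K := Bool × Option ℕ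
  itm := itmB u Δb Δd Δr
  cls := clsB
  large k := k.1 = true
  itm_online := itmB_online u Δb Δd Δr
  good _ _ hσ := itmB_good hu hb hd hr hσ
  cls_lt σ _ _ j _ := clsB_lt σ j
  w_large σ m hσ j hj h := by
    have h' : u < 4 * (σ j).r := of_decide_eq_true h
    show wgt u (σ j) = 1
    unfold wgt
    rw [if_pos h']
  w_small σ m hσ j hj h := by
    have h' : ¬ u < 4 * (σ j).r := fun hc => h (decide_eq_true hc)
    show u * wgt u (σ j) = 4 * (σ j).r
    unfold wgt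
    rw [if_neg h']
    field_simp
  budget σ m hσ := by
    rcases Nat.eq_zero_or_pos m with hm | hm
    · exact ⟨fun _ => 1, fun _ => one_pos, fun j hj => absurd hj (by omega)⟩
    · refine ⟨fun k => 3 * Δd ^ 2 * thb u Δb Δr σ k.1, fun k => ?_, fun j _ => rfl⟩
      exact mul_pos (by positivity) (thb_pos hu hb hr hσ hm k.1)
  sep σ m hσ i hi j hj e τ hei hej _ _ hcls hlarge := itmB_sep hei hej hcls hlarge
  cell σ m hσ e τ := ⟨_, fun j hj he ht => itmB_cell hd hσ hj he ht⟩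
  opt σ m hσ S hS k z := by
    refine le_trans (le_of_eq ?_) (itmB_opt hu hd hσ S hS k z)
    refine Finset.sum_congr ?_ fun _ _ => rfl
    ext i
    simp only [Finset.mem_filter]

theorem algA (n : ℕ) {u Δb Δd Δr : ℝ} (hu : 0 < u) (hb : 1 ≤ Δb) (hd : 1 ≤ Δd) (hr : 1 ≤ Δr)
    (hn : 2 ≤ n) : ∃ A : RandAlg n, A.Competitive u Δb Δd Δr
      (10 ^ 4 * ((1 + Real.log Δd) * (Real.log n + Real.log Δb + Real.log Δr))) := by
  have hM : (0 : ℝ) ≤ n * Δb ^ 2 * Δr ^ 2 := by positivity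
  obtain ⟨h1, h2⟩ := lvls_spec _ hM
  exact ⟨_, competitive_mono (numer_A n Δb Δd Δr hn hb hd hr) _
    ((redA n hu hb hd hr (by omega)).competitive hu hM (by norm_num) h1 h2 (by omega))⟩

theorem algB (n : ℕ) {u Δb Δd Δr : ℝ} (hu : 0 < u) (hb : 1 ≤ Δb) (hd : 1 ≤ Δd) (hr : 1 ≤ Δr)
    (hn : 2 ≤ n) : ∃ A : RandAlg n, A.Competitive u Δb Δd Δr
      (10 ^ 4 * (Real.log n * (1 + Real.log Δb + Real.log Δd + Real.log Δr))) := by
  have hM : (0 : ℝ) ≤ 3 * Δd ^ 2 * Δb ^ 2 * Δr ^ 2 := by positivity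
  obtain ⟨h1, h2⟩ := lvls_spec _ hM
  exact ⟨_, competitive_mono (numer_B n Δb Δd Δr hn hb hd hr) _
    ((redB n hu hb hd hr).competitive hu hM (by norm_num) h1 h2 (by omega))⟩

/-- There is an absolute constant `C` such that for the line with `n ≥ 2` vertices, all capacities `u > 0` and all
ranges `Δb, Δd, Δr ≥ 1` (all three parameters vary simultaneously):
1. there is a randomized online algorithm with competitive ratio
   `C · min (log n, 1 + log Δd) · (log n + log Δb + log Δd + log Δr)`;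
2. for permanent calls there is one with ratio `C (log n + log Δb + log Δr)`. -/
theorem main : ∃ C : ℝ, 0 < C ∧ ∀ (n : ℕ) (u Δb Δd Δr : ℝ), 2 ≤ n → 0 < u → 1 ≤ Δb → 1 ≤ Δd → 1 ≤ Δr →
    (∃ A : RandAlg n, A.Competitive u Δb Δd Δr
      (C * (min (Real.log n) (1 + Real.log Δd) *
        (Real.log n + Real.log Δb + Real.log Δd + Real.log Δr)))) ∧
    (∃ A : RandAlg n, A.CompetitiveP u Δb Δr (C * (Real.log n + Real.log Δb + Real.log Δr))) := by
  refine ⟨10 ^ 5, by norm_num, ?_⟩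
  intro n u Δb Δd Δr hn hu hb hd hr
  constructor
  · rcases numer_min n Δb Δd Δr hn hb hd hr with h | h
    · obtain ⟨A, hA⟩ := algA n hu hb hd hr hn
      exact ⟨A, competitive_mono (by linarith) A hA⟩
    · obtain ⟨A, hA⟩ := algB n hu hb hd hr hn
      exact ⟨A, competitive_mono (by linarith) A hA⟩
  · obtain ⟨A, hA⟩ := algA n hu hb le_rfl hr hn
    rw [Real.log_one, add_zero, one_mul] at hA
    refine perm_of_equal A (competitive_mono ?_ A hA)
    have h1 : 0 ≤ Real.log n := Real.log_natCast_nonneg n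
    have h2 := Real.log_nonneg hb
    have h3 := Real.log_nonneg hr
    nlinarith

end Pool.Agent.MPc98431
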