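import Pool.Agent.Lib.MP_c98431_lc.SDefs

/-!
# JOB Level: levels
-/

set_option autoImplicit false

open Finset

namespace Pool.Agent.MPc98431

variable {K : Type}

open Classical in
private theorem ldx_le_of_imp {x : ℕ → Item K} {m : ℕ} {M : ℝ} (hx : Good x M m) {A B : ℕ → Prop}
    {j : ℕ} (hj : j ≤ m) (k : K) (e : ℤ) (hAB : ∀ i < j, A i → B i) :
    ld x A j k e ≤ ld x B j k e := by
  unfold ld
  apply Finset.sum_le_sum_of_subset_of_nonneg
  · intro i hi
    simp only [Finset.mem_filter, Finset.mem_range] at hi ⊢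
    exact ⟨hi.1, hAB i hi.1 hi.2.1, hi.2.2⟩
  · intro i hi _
    simp only [Finset.mem_filter, Finset.mem_range] at hi
    exact (hx i (lt_of_lt_of_le hi.1 hj)).1.le

open Classical in
private theorem ldx_mono_m {x : ℕ → Item K} {m : ℕ} {M : ℝ} (hx : Good x M m) {A : ℕ → Prop}
    {j l : ℕ} (hjl : j ≤ l) (hl : l ≤ m) (k : K) (e : ℤ) :
    ld x A j k e ≤ ld x A l k e := by
  unfold ld
  apply Finset.sum_le_sum_of_subset_of_nonneg
  · intro i hi
    simp only [Finset.mem_filter, Finset.mem_range] at hi ⊢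
    exact ⟨lt_of_lt_of_le hi.1 hjl, hi.2⟩
  · intro i hi _
    simp only [Finset.mem_filter, Finset.mem_range] at hi
    exact (hx i (lt_of_lt_of_le hi.1 hl)).1.le

open Classical in
private theorem ldx_add (x : ℕ → Item K) {A B C : ℕ → Prop} (j : ℕ) (k : K) (e : ℤ)
    (h1 : ∀ i < j, (C i ↔ A i ∨ B i)) (h2 : ∀ i < j, ¬ (A i ∧ B i)) :
    ld x C j k e = ld x A j k e + ld x B j k e := by
  unfold ld
  rw [← Finset.sum_union]
  · apply Finset.sum_congr _ (fun _ _ => rfl)
    ext i
    simp only [Finset.mem_filter, Finset.mem_range, Finset.mem_union]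
    constructor
    · rintro ⟨a, b, c⟩
      rcases (h1 i a).1 b with h | h
      · exact Or.inl ⟨a, h, c⟩
      · exact Or.inr ⟨a, h, c⟩
    · rintro (⟨a, b, c⟩ | ⟨a, b, c⟩)
      · exact ⟨a, (h1 i a).2 (Or.inl b), c⟩
      · exact ⟨a, (h1 i a).2 (Or.inr b), c⟩
  · rw [Finset.disjoint_left]
    intro i hi hi'
    simp only [Finset.mem_filter, Finset.mem_range] at hi hi'
    exact h2 i hi.1 ⟨hi.2.1, hi'.2.1⟩

open Classical in
/-- the last item -/
private theorem ldx_last (x : ℕ → Item K) {A : ℕ → Prop} {m y : ℕ} (hy : y < m) (k : K) (e : ℤ)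
    (hA : A y) (hk : (x y).key = k) (he : e ∈ (x y).cells)
    (hmax : ∀ i < m, A i → (x i).key = k → e ∈ (x i).cells → i ≤ y) :
    ld x A m k e = ld x A y k e + (x y).w := by
  unfold ld
  have : (range m).filter (fun i => A i ∧ (x i).key = k ∧ e ∈ (x i).cells) =
      insert y ((range y).filter (fun i => A i ∧ (x i).key = k ∧ e ∈ (x i).cells)) := by
    ext i
    simp only [Finset.mem_filter, Finset.mem_range, Finset.mem_insert]
    constructor
    · rintro ⟨a, b, c, d⟩
      rcases eq_or_lt_of_le (hmax i a b c d) with h | h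
      · exact Or.inl h
      · exact Or.inr ⟨h, b, c, d⟩
    · rintro (h | ⟨a, b⟩)
      · subst h
        exact ⟨hy, hA, hk, he⟩
      · exact ⟨a.trans hy, b⟩
  rw [this, Finset.sum_insert, add_comm]
  simp

open Classical in
private theorem ldx_le_abs (x : ℕ → Item K) (A : ℕ → Prop) (j : ℕ) (k : K) (e : ℤ) :
    ld x A j k e ≤ ∑ i ∈ range j, |(x i).w| := by
  unfold ld
  refine le_trans (Finset.sum_le_sum (fun i _ => le_abs_self (x i).w)) ?_
  exact Finset.sum_le_sum_of_subset_of_nonneg (Finset.filter_subset _ _) (fun i _ _ => abs_nonneg _)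

/-- The set of admissible levels is not empty (take `p ≥ ∑_{i<j} |w_i| + |w_j|`), so `lev j` belongs to it. -/
theorem lev_mem {x : ℕ → Item K} {V : ℕ → Prop} {lev : ℕ → ℕ} (hL : IsLev x V lev) (j : ℕ) :
    lev j ∈ levSet x V lev j := by
  have hne : (levSet x V lev j).Nonempty := by
    obtain ⟨p, hp⟩ := exists_nat_ge (∑ i ∈ range j, |(x i).w| + |(x j).w|)
    refine ⟨p + 1, Nat.succ_le_succ (Nat.zero_le _), fun e _ => ?_⟩
    have h1 : ld x (fun i => V i ∧ lev i ≤ p + 1) j (x j).key e ≤ ∑ i ∈ range j, |(x i).w| := by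
      exact ldx_le_abs x _ j _ e
    have h2 := le_abs_self (x j).w
    push_cast
    linarith
  have := Nat.sInf_mem hne
  rw [← hL j] at this
  exact this

/-- `lev j ≤ P` if the total load is at most `P` (loads of nonnegative weights are monotone in the
predicate; `Nat.sInf_le`). -/
theorem lev_le {x : ℕ → Item K} {V : ℕ → Prop} {lev : ℕ → ℕ} (hL : IsLev x V lev) {m : ℕ} {M : ℝ}
    (hx : Good x M m) {j : ℕ} (hj : j < m) {P : ℕ} (hP : 1 ≤ P)
    (h : ∀ e ∈ (x j).cells, ld x V j (x j).key e + (x j).w ≤ P) : lev j ≤ P := by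
  rw [hL j]
  apply Nat.sInf_le
  refine ⟨hP, fun e he => ?_⟩
  have := ldx_le_of_imp hx (A := fun i => V i ∧ lev i ≤ P) (B := V) hj.le (x j).key e
    (fun i _ hi => hi.1)
  have := h e he
  linarith

/-- The witness: if `lev j = q + 2`, then `q + 1` is not admissible. -/
theorem lev_wit {x : ℕ → Item K} {V : ℕ → Prop} {lev : ℕ → ℕ} (hL : IsLev x V lev) {j q : ℕ}
    (h : lev j = q + 2) :
    ∃ e ∈ (x j).cells, ((q + 1 : ℕ) : ℝ) < ld x (fun i => V i ∧ lev i ≤ q + 1) j (x j).key e + (x j).w := by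
  have h1 : q + 1 ∉ levSet x V lev j := by
    apply Nat.notMem_of_lt_sInf
    rw [← hL j, h]
    omega
  by_contra hcon
  push Not at hcon
  exact h1 ⟨by omega, hcon⟩

/-- The load of a level at the witness of one of its items is less than `1 + w`: let `y < m` be the last item with
`V y`, key `k`, `lev y = q + 2` and `e ∈ I_y` (`y ≥ j` as `j` is such an item).  Then
`ld(level q+2, m) = ld(level q+2, y) + w_y ≤ (q+2) - ld(levels ≤ q+1, y) ≤ (q+2) - ld(levels ≤ q+1, j) < 1 + w_j`
(`lev_mem` for `y`; `ld(levels ≤ q+2) = ld(levels ≤ q+1) + ld(level q+2)`). -/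
theorem wit_load {x : ℕ → Item K} {V : ℕ → Prop} {lev : ℕ → ℕ} (hL : IsLev x V lev) {m : ℕ} {M : ℝ}
    (hx : Good x M m) {j q : ℕ} (hj : j < m) (hVj : V j) (h : lev j = q + 2) {e : ℤ} (he : e ∈ (x j).cells)
    (hw : ((q + 1 : ℕ) : ℝ) < ld x (fun i => V i ∧ lev i ≤ q + 1) j (x j).key e + (x j).w) :
    ld x (fun i => V i ∧ lev i = q + 2) m (x j).key e < 1 + (x j).w := by
  classical
  set F := (range m).filter (fun i => (V i ∧ lev i = q + 2) ∧ (x i).key = (x j).key ∧ e ∈ (x i).cells) with hF
  have hjF : j ∈ F := by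
    rw [hF, Finset.mem_filter, Finset.mem_range]
    exact ⟨hj, ⟨hVj, h⟩, rfl, he⟩
  obtain ⟨y, hyF, hymax⟩ := Finset.exists_max_image F id ⟨j, hjF⟩
  have hy := hyF
  rw [hF, Finset.mem_filter, Finset.mem_range] at hy
  obtain ⟨hym, ⟨hVy, hly⟩, hyk, hye⟩ := hy
  have hjy : j ≤ y := hymax j hjF
  have h1 := ldx_last x (A := fun i => V i ∧ lev i = q + 2) hym (x j).key e ⟨hVy, hly⟩ hyk hye
    (fun i a b c d => hymax i (by
      rw [hF, Finset.mem_filter, Finset.mem_range]
      exact ⟨a, b, c, d⟩))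
  have h2 := (lev_mem hL y).2 e hye
  rw [hly, hyk] at h2
  have h3 := ldx_add x (A := fun i => V i ∧ lev i ≤ q + 1) (B := fun i => V i ∧ lev i = q + 2)
    (C := fun i => V i ∧ lev i ≤ q + 2) y (x j).key e
    (fun i _ => by
      constructor
      · rintro ⟨a, b⟩
        rcases Nat.lt_or_ge (lev i) (q + 2) with hlt | hge
        · exact Or.inl ⟨a, by omega⟩
        · exact Or.inr ⟨a, by omega⟩
      · rintro (⟨a, b⟩ | ⟨a, b⟩)
        · exact ⟨a, by omega⟩
        · exact ⟨a, by omega⟩)
    (fun i _ => by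
      rintro ⟨⟨_, a⟩, _, b⟩
      omega)
  have h4 := ldx_mono_m hx (A := fun i => V i ∧ lev i ≤ q + 1) hjy hym.le (x j).key e
  push_cast at h2 hw
  linarith

/-- The load of level `1` is at most `1` (last item `y` covering `e`; `lev_mem` for `y`). -/
theorem load_one {x : ℕ → Item K} {V : ℕ → Prop} {lev : ℕ → ℕ} (hL : IsLev x V lev) {m : ℕ} {M : ℝ}
    (hx : Good x M m) (k : K) (e : ℤ) : ld x (fun i => V i ∧ lev i = 1) m k e ≤ 1 := by
  classical
  set F := (range m).filter (fun i => (V i ∧ lev i = 1) ∧ (x i).key = k ∧ e ∈ (x i).cells) with hF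
  rcases F.eq_empty_or_nonempty with hE | hne
  · have : ld x (fun i => V i ∧ lev i = 1) m k e = ∑ i ∈ F, (x i).w := by
      unfold ld
      apply Finset.sum_congr _ (fun _ _ => rfl)
      ext i
      simp only [hF, Finset.mem_filter]
    rw [this, hE, Finset.sum_empty]
    exact zero_le_one
  · obtain ⟨y, hyF, hymax⟩ := Finset.exists_max_image F id hne
    have hy := hyF
    rw [hF, Finset.mem_filter, Finset.mem_range] at hy
    obtain ⟨hym, ⟨hVy, hly⟩, hyk, hye⟩ := hy
    have h1 := ldx_last x (A := fun i => V i ∧ lev i = 1) hym k e ⟨hVy, hly⟩ hyk hye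
      (fun i a b c d => hymax i (by
        rw [hF, Finset.mem_filter, Finset.mem_range]
        exact ⟨a, b, c, d⟩))
    have h2 := (lev_mem hL y).2 e hye
    rw [hly, hyk] at h2
    have h3 := ldx_le_of_imp hx (A := fun i => V i ∧ lev i = 1) (B := fun i => V i ∧ lev i ≤ 1)
      hym.le k e (fun i _ hi => ⟨hi.1, hi.2.le⟩)
    push_cast at h2
    linarith

/-- **The load of every level is at most `4`** in every cell `z`.  Level `0` is empty (`lev_mem`), level `1` is `load_one`.
Level `q+2`: choose a witness `wt i ∈ I_i` for every item of the level (`lev_wit`, `wit_load`).  The items `i` of the level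
with `z ∈ I_i` and `z ≤ wt i`: let `i0` be one with the least `wt`; all of them contain `wt i0` (intervals), so their
total weight is at most the load at `wt i0`, `< 1 + w_{i0} ≤ 2`.  In the same way for `wt i < z` (greatest `wt`). -/
theorem level_load {x : ℕ → Item K} {V : ℕ → Prop} {lev : ℕ → ℕ} (hL : IsLev x V lev) {m : ℕ} {M : ℝ}
    (hx : Good x M m) (k : K) (p : ℕ) (z : ℤ) : ld x (fun i => V i ∧ lev i = p) m k z ≤ 4 := by
  classical
  rcases p with _ | _ | q
  · have : ld x (fun i => V i ∧ lev i = 0) m k z = 0 := by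
      unfold ld
      apply Finset.sum_eq_zero
      intro i hi
      simp only [Finset.mem_filter] at hi
      have := (lev_mem hL i).1
      omega
    rw [this]
    norm_num
  · have := load_one hL hx k z
    simp only [zero_add]
    linarith
  · have hwit : ∀ i : ℕ, ∃ e : ℤ, lev i = q + 2 → (e ∈ (x i).cells ∧
        ((q + 1 : ℕ) : ℝ) < ld x (fun l => V l ∧ lev l ≤ q + 1) i (x i).key e + (x i).w) := by
      intro i
      by_cases h : lev i = q + 2
      · obtain ⟨e, he, he'⟩ := lev_wit hL h
        exact ⟨e, fun _ => ⟨he, he'⟩⟩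
      · exact ⟨0, fun h' => absurd h' h⟩
    choose wt hwt using hwit
    set F := (range m).filter (fun i => (V i ∧ lev i = q + 2) ∧ (x i).key = k ∧ z ∈ (x i).cells) with hF
    have hld : ld x (fun i => V i ∧ lev i = q + 2) m k z = ∑ i ∈ F, (x i).w := by
      unfold ld
      apply Finset.sum_congr _ (fun _ _ => rfl)
      ext i
      simp only [hF, Finset.mem_filter]
    show ld x (fun i => V i ∧ lev i = q + 2) m k z ≤ 4
    rw [hld, ← Finset.sum_filter_add_sum_filter_not F (fun i => z ≤ wt i)]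
    have key : ∀ G : Finset ℕ, (∀ i ∈ G, i ∈ F) →
        (G.Nonempty → ∃ i0 ∈ G, ∀ i ∈ G, wt i0 ∈ (x i).cells) → ∑ i ∈ G, (x i).w ≤ 2 := by
      intro G hG hG'
      rcases G.eq_empty_or_nonempty with hE | hne
      · rw [hE, Finset.sum_empty]
        norm_num
      · obtain ⟨i0, hi0, hcell⟩ := hG' hne
        have hi0F := hG i0 hi0
        rw [hF, Finset.mem_filter, Finset.mem_range] at hi0F
        obtain ⟨him, ⟨hVi, hli⟩, hik, _⟩ := hi0F
        have h1 := wit_load hL hx him hVi hli (hwt i0 hli).1 (hwt i0 hli).2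
        have h2 := (hx i0 him).2.1
        have h3 : ∑ i ∈ G, (x i).w ≤ ld x (fun i => V i ∧ lev i = q + 2) m (x i0).key (wt i0) := by
          unfold ld
          apply Finset.sum_le_sum_of_subset_of_nonneg
          · intro i hi
            have hiF := hG i hi
            rw [hF, Finset.mem_filter, Finset.mem_range] at hiF
            simp only [Finset.mem_filter, Finset.mem_range]
            refine ⟨hiF.1, hiF.2.1, ?_, hcell i hi⟩
            rw [hiF.2.2.1, hik]
          · intro i hi _
            simp only [Finset.mem_filter, Finset.mem_range] at hi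
            exact (hx i hi.1).1.le
        linarith
    have hA := key (F.filter (fun i => z ≤ wt i)) (fun i hi => (Finset.mem_filter.1 hi).1) (by
      intro hne
      obtain ⟨i0, hi0, hmin⟩ := Finset.exists_min_image _ wt hne
      refine ⟨i0, hi0, fun i hi => ?_⟩
      have hle := hmin i hi
      have hz := (Finset.mem_filter.1 hi0).2
      have hiF := (Finset.mem_filter.1 hi).1
      rw [hF, Finset.mem_filter, Finset.mem_range] at hiF
      have hc := (hwt i hiF.2.1.2).1
      have hzc := hiF.2.2.2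
      rw [Item.cells, Finset.mem_Ico] at hc hzc ⊢
      omega)
    have hB := key (F.filter (fun i => ¬ z ≤ wt i)) (fun i hi => (Finset.mem_filter.1 hi).1) (by
      intro hne
      obtain ⟨i0, hi0, hmax⟩ := Finset.exists_max_image _ wt hne
      refine ⟨i0, hi0, fun i hi => ?_⟩
      have hle := hmax i hi
      have hz := (Finset.mem_filter.1 hi0).2
      have hiF := (Finset.mem_filter.1 hi).1
      rw [hF, Finset.mem_filter, Finset.mem_range] at hiF
      have hc := (hwt i hiF.2.1.2).1
      have hzc := hiF.2.2.2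
      rw [Item.cells, Finset.mem_Ico] at hc hzc ⊢
      omega)
    linarith

end Pool.Agent.MPc98431
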