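import Pool.Agent.Lib.MP_c98431_lc.SDefs

/-!
# JOB Price: exponential prices (virtual acceptance)
-/

set_option autoImplicit false

open Finset

namespace Pool.Agent.MPc98431

variable {K : Type}

private theorem price_ld_nonneg {x : ℕ → Item K} {M : ℝ} {m : ℕ} (hx : Good x M m) (A : ℕ → Prop)
    {l : ℕ} (hl : l ≤ m) (k : K) (e : ℤ) : 0 ≤ ld x A l k e := by
  classical
  unfold ld
  refine Finset.sum_nonneg fun i hi => ?_
  exact (hx i (lt_of_lt_of_le (mem_range.1 (mem_filter.1 hi).1) hl)).1.le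

private theorem price_ld_mono {x : ℕ → Item K} {M : ℝ} {m : ℕ} (hx : Good x M m) (A : ℕ → Prop)
    {i : ℕ} (hi : i ≤ m) (k : K) (e : ℤ) : ld x A i k e ≤ ld x A m k e := by
  classical
  unfold ld
  refine Finset.sum_le_sum_of_subset_of_nonneg ?_ ?_
  · intro l hl
    rw [mem_filter, mem_range] at hl ⊢
    exact ⟨lt_of_lt_of_le hl.1 hi, hl.2⟩
  · intro l hl _
    exact (hx l (mem_range.1 (mem_filter.1 hl).1)).1.le

private theorem price_term_nonneg {t : ℝ} (ht : 0 ≤ t) : 0 ≤ (2 : ℝ) ^ t - 1 := by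
  have := Real.one_le_rpow (x := (2 : ℝ)) (by norm_num) ht
  linarith

/-- Loads stay small.  All terms `2^ld - 1` are `≥ 0` (loads are `≥ 0`), so
`w (2^{ld(e)} - 1) ≤ w ∑ ... ≤ B ≤ M w`, `2^{ld(e)} ≤ 1 + M`, and `w ≤ 1`. -/
theorem load_le {x : ℕ → Item K} {V : ℕ → Prop} {M : ℝ} {m : ℕ} (hV : IsV x V) (hx : Good x M m)
    (hM : 0 ≤ M) {j : ℕ} (hj : j < m) (hVj : V j) {e : ℤ} (he : e ∈ (x j).cells) :
    ld x V j (x j).key e + (x j).w ≤ Real.logb 2 (1 + M) + 1 := by
  obtain ⟨hw0, hw1, _, hB⟩ := hx j hj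
  have h := (hV j).1 hVj
  unfold FV at h
  have h1 : (2 : ℝ) ^ (ld x V j (x j).key e) - 1 ≤
      ∑ e ∈ (x j).cells, ((2 : ℝ) ^ (ld x V j (x j).key e) - 1) :=
    Finset.single_le_sum (f := fun e => (2 : ℝ) ^ (ld x V j (x j).key e) - 1)
      (fun e' _ => price_term_nonneg (price_ld_nonneg hx V hj.le _ e')) he
  have h2 : (x j).w * ((2 : ℝ) ^ (ld x V j (x j).key e) - 1) ≤ (x j).w * M := by
    calc _ ≤ (x j).w * ∑ e ∈ (x j).cells, ((2 : ℝ) ^ (ld x V j (x j).key e) - 1) :=
          mul_le_mul_of_nonneg_left h1 hw0.le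
      _ ≤ (x j).B := h
      _ ≤ M * (x j).w := hB
      _ = _ := mul_comm _ _
  have h3 := le_of_mul_le_mul_left h2 hw0
  have h4 : ld x V j (x j).key e ≤ Real.logb 2 (1 + M) := by
    rw [Real.le_logb_iff_rpow_le (by norm_num) (by linarith)]
    linarith
  linarith

open Classical in
/-- Final prices are paid for: with `X e = 2^{ld x V m k e} - 1` and any finite set `E` of cells,
`∑_{e ∈ E} X e ≤ 2 ∑ B_i` over the virtually accepted `i < m` with key `k`.
Induction on `m`: a new item `i` with key `k`, virtually accepted, increases the sum by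
`∑_{e ∈ E ∩ I_i} 2^{ld(e)} (2^{w_i} - 1) ≤ w_i ∑_{e ∈ I_i} 2^{ld(e)}` (as `2^w ≤ 1 + w` for `w ∈ [0,1]`, convexity)
`= w_i ∑_{e ∈ I_i} (2^{ld(e)} - 1) + w_i #I_i ≤ 2 B_i`. -/
theorem price_le {x : ℕ → Item K} {V : ℕ → Prop} {M : ℝ} {m : ℕ} (hV : IsV x V) (hx : Good x M m)
    (k : K) (E : Finset ℤ) :
    ∑ e ∈ E, ((2 : ℝ) ^ (ld x V m k e) - 1) ≤
      2 * ∑ i ∈ (range m).filter (fun i => V i ∧ (x i).key = k), (x i).B := by
  induction m with
  | zero =>
    unfold ld
    simp
  | succ m ih =>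
    have hx' : Good x M m := fun i hi => hx i (Nat.lt_succ_of_lt hi)
    have ih' := ih hx'
    have hld : ∀ e, ld x V (m + 1) k e = ld x V m k e +
        (if V m ∧ (x m).key = k ∧ e ∈ (x m).cells then (x m).w else 0) := by
      intro e
      unfold ld
      rw [Finset.sum_filter, Finset.sum_filter, Finset.sum_range_succ]
    by_cases hm : V m ∧ (x m).key = k
    · obtain ⟨hVm, hkm⟩ := hm
      obtain ⟨hw0, hw1, hwc, _⟩ := hx m (Nat.lt_succ_self m)
      have hFV := (hV m).1 hVm
      unfold FV at hFV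
      rw [hkm] at hFV
      have hT : ∑ i ∈ (range (m + 1)).filter (fun i => V i ∧ (x i).key = k), (x i).B =
          (∑ i ∈ (range m).filter (fun i => V i ∧ (x i).key = k), (x i).B) + (x m).B := by
        rw [Finset.sum_filter, Finset.sum_filter, Finset.sum_range_succ, if_pos ⟨hVm, hkm⟩]
      rw [hT, mul_add]
      have h2w : (2 : ℝ) ^ (x m).w ≤ 1 + (x m).w := by
        have := rpow_one_add_le_one_add_mul_self (s := 1) (by norm_num) hw0.le hw1
        rw [mul_one, show (1 : ℝ) + 1 = 2 by norm_num] at this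
        exact this
      have hstep : ∀ e, (2 : ℝ) ^ (ld x V (m + 1) k e) - 1 ≤ ((2 : ℝ) ^ (ld x V m k e) - 1) +
          (if e ∈ (x m).cells then (x m).w * (2 : ℝ) ^ (ld x V m k e) else 0) := by
        intro e
        rw [hld e]
        by_cases he : e ∈ (x m).cells
        · rw [if_pos ⟨hVm, hkm, he⟩, if_pos he, Real.rpow_add (by norm_num)]
          have h0 : 0 < (2 : ℝ) ^ (ld x V m k e) := Real.rpow_pos_of_pos (by norm_num) _
          nlinarith
        · rw [if_neg (fun h => he h.2.2), if_neg he, add_zero, add_zero]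
      have hsum : ∑ e ∈ E, (if e ∈ (x m).cells then (x m).w * (2 : ℝ) ^ (ld x V m k e) else 0) ≤
          2 * (x m).B := by
        rw [← Finset.sum_filter]
        have h1 : ∑ e ∈ E.filter (fun e => e ∈ (x m).cells), (x m).w * (2 : ℝ) ^ (ld x V m k e) ≤
            ∑ e ∈ (x m).cells, (x m).w * (2 : ℝ) ^ (ld x V m k e) := by
          refine Finset.sum_le_sum_of_subset_of_nonneg ?_ ?_
          · intro e he
            exact (mem_filter.1 he).2
          · intro e _ _
            have h0 : 0 < (2 : ℝ) ^ (ld x V m k e) := Real.rpow_pos_of_pos (by norm_num) _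
            positivity
        have h2 : ∑ e ∈ (x m).cells, (x m).w * (2 : ℝ) ^ (ld x V m k e) =
            (x m).w * ∑ e ∈ (x m).cells, ((2 : ℝ) ^ (ld x V m k e) - 1) +
              (x m).w * ((x m).cells.card : ℝ) := by
          rw [Finset.sum_sub_distrib, Finset.sum_const, nsmul_eq_mul, mul_one, ← Finset.mul_sum]
          ring
        rw [h2] at h1
        linarith
      calc ∑ e ∈ E, ((2 : ℝ) ^ (ld x V (m + 1) k e) - 1)
          ≤ ∑ e ∈ E, (((2 : ℝ) ^ (ld x V m k e) - 1) +
            (if e ∈ (x m).cells then (x m).w * (2 : ℝ) ^ (ld x V m k e) else 0)) :=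
            Finset.sum_le_sum fun e _ => hstep e
        _ = ∑ e ∈ E, ((2 : ℝ) ^ (ld x V m k e) - 1) +
            ∑ e ∈ E, (if e ∈ (x m).cells then (x m).w * (2 : ℝ) ^ (ld x V m k e) else 0) :=
            Finset.sum_add_distrib
        _ ≤ _ := add_le_add ih' hsum
    · have hT : ∑ i ∈ (range (m + 1)).filter (fun i => V i ∧ (x i).key = k), (x i).B =
          ∑ i ∈ (range m).filter (fun i => V i ∧ (x i).key = k), (x i).B := by
        rw [Finset.sum_filter, Finset.sum_filter, Finset.sum_range_succ, if_neg hm, add_zero]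
      rw [hT]
      have : ∀ e, ld x V (m + 1) k e = ld x V m k e := by
        intro e
        rw [hld e, if_neg (fun h => hm ⟨h.1, h.2.1⟩), add_zero]
      simp only [this]
      exact ih'

open Classical in
/-- The virtually accepted items have at least `1/(1+2c)` of the value of every set `O` of items with key `k`
whose load is at most `c` in every cell.  For `i ∈ O` not virtually accepted:
`B_i ≤ w_i ∑_{e ∈ I_i} (2^{ld x V i k e} - 1) ≤ w_i ∑_{e ∈ I_i} X e` with the final prices `X e` (loads grow with `m`).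
Sum over `i ∈ O`: `≤ ∑_{e ∈ E} X e ∑_{i ∈ O, e ∈ I_i} w_i ≤ c ∑_E X e ≤ 2 c ∑_V B` with `E = ⋃_{i<m} I_i`. -/
theorem value_le {x : ℕ → Item K} {V : ℕ → Prop} {M : ℝ} {m : ℕ} (hV : IsV x V) (hx : Good x M m)
    (k : K) {c : ℝ} (hc : 0 ≤ c) {O : Finset ℕ} (hO : O ⊆ range m) (hk : ∀ i ∈ O, (x i).key = k)
    (hload : ∀ e : ℤ, ∑ i ∈ O.filter (fun i => e ∈ (x i).cells), (x i).w ≤ c) :
    ∑ i ∈ O, (x i).B ≤
      (1 + 2 * c) * ∑ i ∈ (range m).filter (fun i => V i ∧ (x i).key = k), (x i).B := by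
  have hB0 : ∀ i < m, 0 ≤ (x i).B := by
    intro i hi
    obtain ⟨hw0, _, hwc, _⟩ := hx i hi
    exact le_trans (by positivity) hwc
  set T : ℝ := ∑ i ∈ (range m).filter (fun i => V i ∧ (x i).key = k), (x i).B with hT
  set X : ℤ → ℝ := fun e => (2 : ℝ) ^ (ld x V m k e) - 1 with hX
  have hX0 : ∀ e, 0 ≤ X e := fun e => price_term_nonneg (price_ld_nonneg hx V le_rfl k e)
  set E : Finset ℤ := (range m).biUnion (fun i => (x i).cells) with hE
  have hprice : ∑ e ∈ E, X e ≤ 2 * T := price_le hV hx k E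
  rw [← Finset.sum_filter_add_sum_filter_not O (fun i => V i)]
  have h1 : ∑ i ∈ O.filter (fun i => V i), (x i).B ≤ T := by
    refine Finset.sum_le_sum_of_subset_of_nonneg ?_ ?_
    · intro i hi
      obtain ⟨hiO, hVi⟩ := mem_filter.1 hi
      exact mem_filter.2 ⟨hO hiO, hVi, hk i hiO⟩
    · intro i hi _
      exact hB0 i (mem_range.1 (mem_filter.1 hi).1)
  have h2 : ∀ i ∈ O.filter (fun i => ¬ V i), (x i).B ≤ ∑ e ∈ E, (if e ∈ (x i).cells then (x i).w * X e else 0) := by
    intro i hi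
    obtain ⟨hiO, hVi⟩ := mem_filter.1 hi
    have him : i < m := mem_range.1 (hO hiO)
    obtain ⟨hw0, _, _, _⟩ := hx i him
    have hn : ¬ FV x V i := fun h => hVi ((hV i).2 h)
    unfold FV at hn
    rw [not_le, hk i hiO] at hn
    rw [← Finset.sum_filter]
    have hEc : E.filter (fun e => e ∈ (x i).cells) = (x i).cells := by
      ext e
      rw [mem_filter]
      constructor
      · exact fun h => h.2
      · intro h
        exact ⟨mem_biUnion.2 ⟨i, hO hiO, h⟩, h⟩
    rw [hEc, ← Finset.mul_sum]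
    refine hn.le.trans (mul_le_mul_of_nonneg_left (Finset.sum_le_sum fun e _ => ?_) hw0.le)
    have := price_ld_mono hx V him.le k e
    have h3 : (2 : ℝ) ^ (ld x V i k e) ≤ (2 : ℝ) ^ (ld x V m k e) :=
      Real.rpow_le_rpow_of_exponent_le (by norm_num) this
    simp only [hX]
    linarith
  have h3 : ∑ i ∈ O.filter (fun i => ¬ V i), (x i).B ≤ 2 * c * T := by
    calc ∑ i ∈ O.filter (fun i => ¬ V i), (x i).B
        ≤ ∑ i ∈ O.filter (fun i => ¬ V i), ∑ e ∈ E, (if e ∈ (x i).cells then (x i).w * X e else 0) :=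
          Finset.sum_le_sum h2
      _ ≤ ∑ i ∈ O, ∑ e ∈ E, (if e ∈ (x i).cells then (x i).w * X e else 0) := by
          refine Finset.sum_le_sum_of_subset_of_nonneg (filter_subset _ _) ?_
          intro i hi _
          refine Finset.sum_nonneg fun e _ => ?_
          split_ifs
          · exact mul_nonneg (hx i (mem_range.1 (hO hi))).1.le (hX0 e)
          · exact le_rfl
      _ = ∑ e ∈ E, X e * ∑ i ∈ O.filter (fun i => e ∈ (x i).cells), (x i).w := by
          rw [Finset.sum_comm]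
          refine Finset.sum_congr rfl fun e _ => ?_
          rw [Finset.sum_filter, Finset.mul_sum]
          refine Finset.sum_congr rfl fun i _ => ?_
          split_ifs
          · ring
          · ring
      _ ≤ ∑ e ∈ E, X e * c := Finset.sum_le_sum fun e _ =>
          mul_le_mul_of_nonneg_left (hload e) (hX0 e)
      _ = c * ∑ e ∈ E, X e := by rw [← Finset.sum_mul, mul_comm]
      _ ≤ c * (2 * T) := mul_le_mul_of_nonneg_left hprice hc
      _ = _ := by ring
  linarith

end Pool.Agent.MPc98431
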