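import Pool.Agent.Lib.MP_c98431_lc.SDefs

/-!
# JOB Rec: the recursive construction of `V`, `lev`, `col`, and their non-anticipation
-/

set_option autoImplicit false

open Finset

namespace Pool.Agent.MPc98431

variable {K : Type}

/-- Step-by-step construction: `stp F j` has the correct values at the places `< j`. -/
noncomputable def stp {α : Type} [Inhabited α] (F : (ℕ → α) → ℕ → α) : ℕ → (ℕ → α)
  | 0 => fun _ => default
  | j + 1 => Function.update (stp F j) j (F (stp F j) j)

/-- the solution of `f j = F f j` -/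
noncomputable def sol {α : Type} [Inhabited α] (F : (ℕ → α) → ℕ → α) (j : ℕ) : α := F (stp F j) j

/-- `F f j` depends only on `f 0, ..., f (j-1)` -/
def Loc {α : Type} (F : (ℕ → α) → ℕ → α) : Prop :=
  ∀ f g j, (∀ i < j, f i = g i) → F f j = F g j

/-- `stp F j i = sol F i` for `i < j` (induction on `j`). -/
theorem stp_apply {α : Type} [Inhabited α] (F : (ℕ → α) → ℕ → α) (i j : ℕ) (h : i < j) :
    stp F j i = sol F i := by
  induction j with
  | zero => exact absurd h (Nat.not_lt_zero i)
  | succ j ih =>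
    show Function.update (stp F j) j (F (stp F j) j) i = sol F i
    rcases Nat.lt_succ_iff_lt_or_eq.1 h with h1 | h1
    · rw [Function.update_of_ne h1.ne, ih h1]
    · subst h1
      rw [Function.update_self]
      rfl

theorem sol_eq {α : Type} [Inhabited α] (F : (ℕ → α) → ℕ → α) (hF : Loc F) (j : ℕ) :
    sol F j = F (sol F) j :=
  hF _ _ j fun i hi => stp_apply F i j hi

/-- strong induction on `i ≤ j` using `sol_eq` -/
theorem sol_congr {α : Type} [Inhabited α] (F G : (ℕ → α) → ℕ → α) (hF : Loc F) (hG : Loc G) (j : ℕ)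
    (h : ∀ i ≤ j, ∀ f, F f i = G f i) : sol F j = sol G j := by
  have key : ∀ i, i ≤ j → sol F i = sol G i := by
    intro i
    induction i using Nat.strong_induction_on with
    | _ i ih =>
      intro hi
      rw [sol_eq F hF i, sol_eq G hG i, hF (sol F) (sol G) i fun l hl => ih l hl (hl.le.trans hi),
        h i hi]
  exact key j le_rfl

private theorem rec_ld_congr {x y : ℕ → Item K} {A B : ℕ → Prop} {m : ℕ} (k : K) (e : ℤ)
    (hxy : ∀ i < m, x i = y i) (hAB : ∀ i < m, (A i ↔ B i)) : ld x A m k e = ld y B m k e := by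
  classical
  unfold ld
  refine Finset.sum_congr ?_ ?_
  · ext i
    simp only [mem_filter, mem_range]
    constructor
    · rintro ⟨h1, h2, h3, h4⟩
      rw [hxy i h1] at h3 h4
      exact ⟨h1, (hAB i h1).1 h2, h3, h4⟩
    · rintro ⟨h1, h2, h3, h4⟩
      rw [← hxy i h1] at h3 h4
      exact ⟨h1, (hAB i h1).2 h2, h3, h4⟩
  · intro i hi
    rw [hxy i (mem_range.1 (mem_filter.1 hi).1)]

private theorem rec_FV_congr {x y : ℕ → Item K} {A B : ℕ → Prop} {j : ℕ}
    (hxy : ∀ i ≤ j, x i = y i) (hAB : ∀ i < j, (A i ↔ B i)) : FV x A j = FV y B j := by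
  unfold FV
  rw [hxy j le_rfl]
  have : ∀ e, ld x A j (y j).key e = ld y B j (y j).key e := fun e =>
    rec_ld_congr _ _ (fun i hi => hxy i hi.le) hAB
  simp only [this]

private theorem rec_levSet_congr {x y : ℕ → Item K} {A B : ℕ → Prop} {f g : ℕ → ℕ} {j : ℕ}
    (hxy : ∀ i ≤ j, x i = y i) (hAB : ∀ i < j, (A i ↔ B i)) (hfg : ∀ i < j, f i = g i) :
    levSet x A f j = levSet y B g j := by
  unfold levSet
  rw [hxy j le_rfl]
  have : ∀ p e, ld x (fun i => A i ∧ f i ≤ p) j (y j).key e =
      ld y (fun i => B i ∧ g i ≤ p) j (y j).key e := fun p e =>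
    rec_ld_congr _ _ (fun i hi => hxy i hi.le) fun i hi => by rw [hAB i hi, hfg i hi]
  simp only [this]

private theorem rec_colSet_congr {x y : ℕ → Item K} {A B : ℕ → Prop} {l l' f g : ℕ → ℕ} {j : ℕ}
    (hxy : ∀ i ≤ j, x i = y i) (hAB : ∀ i < j, (A i ↔ B i)) (hll : ∀ i ≤ j, l i = l' i)
    (hfg : ∀ i < j, f i = g i) :
    colSet x A l f j = colSet y B l' g j := by
  ext c
  unfold colSet
  constructor
  · intro h i hi hB hk hl hn
    rw [← hxy i hi.le, ← hxy j le_rfl] at hk hn
    rw [← hll i hi.le, ← hll j le_rfl] at hl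
    rw [← hfg i hi]
    exact h i hi ((hAB i hi).2 hB) hk hl hn
  · intro h i hi hB hk hl hn
    rw [hxy i hi.le, hxy j le_rfl] at hk hn
    rw [hll i hi.le, hll j le_rfl] at hl
    rw [hfg i hi]
    exact h i hi ((hAB i hi).1 hB) hk hl hn

/-- the three solutions -/
noncomputable def VV (x : ℕ → Item K) : ℕ → Prop := sol (fun V j => FV x V j)
noncomputable def LV (x : ℕ → Item K) : ℕ → ℕ := sol (fun lev j => sInf (levSet x (VV x) lev j))
noncomputable def CV (x : ℕ → Item K) : ℕ → ℕ := sol (fun col j => sInf (colSet x (VV x) (LV x) col j))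

private theorem rec_loc_V (x : ℕ → Item K) : Loc (fun V j => FV x V j) := fun _ _ _ h =>
  rec_FV_congr (fun _ _ => rfl) fun i hi => by rw [h i hi]

private theorem rec_loc_L (x : ℕ → Item K) : Loc (fun lev j => sInf (levSet x (VV x) lev j)) :=
  fun f g j h => by
    show sInf (levSet x (VV x) f j) = sInf (levSet x (VV x) g j)
    rw [rec_levSet_congr (x := x) (y := x) (A := VV x) (B := VV x) (f := f) (g := g)
      (fun _ _ => rfl) (fun _ _ => Iff.rfl) h]

private theorem rec_loc_C (x : ℕ → Item K) :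
    Loc (fun col j => sInf (colSet x (VV x) (LV x) col j)) :=
  fun f g j h => by
    show sInf (colSet x (VV x) (LV x) f j) = sInf (colSet x (VV x) (LV x) g j)
    rw [rec_colSet_congr (x := x) (y := x) (A := VV x) (B := VV x) (l := LV x) (l' := LV x)
      (f := f) (g := g) (fun _ _ => rfl) (fun _ _ => Iff.rfl) (fun _ _ => rfl) h]

/-- (`ld x V j` depends only on `V i`, `i < j`: the filtered sets are equal.) -/
theorem isV_VV (x : ℕ → Item K) : IsV x (VV x) := fun j =>
  iff_of_eq (sol_eq _ (rec_loc_V x) j)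

theorem isLev_LV (x : ℕ → Item K) : IsLev x (VV x) (LV x) := fun j =>
  sol_eq _ (rec_loc_L x) j

theorem isCol_CV (x : ℕ → Item K) : IsCol x (VV x) (LV x) (CV x) := fun j =>
  sol_eq _ (rec_loc_C x) j

/-- Non-anticipation: if the items `0, ..., j` agree, so do the values at `j`
(`sol_congr`; for `LV` and `CV` use the statements for the earlier functions at all `i ≤ j`). -/
theorem VV_congr (x y : ℕ → Item K) (j : ℕ) (h : ∀ i ≤ j, x i = y i) : VV x j = VV y j :=
  sol_congr _ _ (rec_loc_V x) (rec_loc_V y) j fun i hi _ =>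
    rec_FV_congr (fun l hl => h l (hl.trans hi)) fun _ _ => Iff.rfl

theorem LV_congr (x y : ℕ → Item K) (j : ℕ) (h : ∀ i ≤ j, x i = y i) : LV x j = LV y j :=
  sol_congr _ _ (rec_loc_L x) (rec_loc_L y) j fun i hi f => by
    show sInf (levSet x (VV x) f i) = sInf (levSet y (VV y) f i)
    rw [rec_levSet_congr (x := x) (y := y) (A := VV x) (B := VV y) (f := f) (g := f)
      (fun l hl => h l (hl.trans hi))
      (fun l hl => iff_of_eq (VV_congr x y l fun l' hl' => h l' (hl'.trans (hl.le.trans hi))))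
      (fun _ _ => rfl)]

theorem CV_congr (x y : ℕ → Item K) (j : ℕ) (h : ∀ i ≤ j, x i = y i) : CV x j = CV y j :=
  sol_congr _ _ (rec_loc_C x) (rec_loc_C y) j fun i hi f => by
    show sInf (colSet x (VV x) (LV x) f i) = sInf (colSet y (VV y) (LV y) f i)
    rw [rec_colSet_congr (x := x) (y := y) (A := VV x) (B := VV y) (l := LV x) (l' := LV y)
      (f := f) (g := f)
      (fun l hl => h l (hl.trans hi))
      (fun l hl => iff_of_eq (VV_congr x y l fun l' hl' => h l' (hl'.trans (hl.le.trans hi))))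
      (fun l hl => LV_congr x y l fun l' hl' => h l' (hl'.trans (hl.trans hi)))
      (fun _ _ => rfl)]

end Pool.Agent.MPc98431
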