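import Pool.Agent.Lib.MP_c98431_lc.Defs
import Pool.Agent.Lib.MP_c98431_lc.Rec
import Pool.Agent.Lib.MP_c98431_lc.Price
import Pool.Agent.Lib.MP_c98431_lc.Level
import Pool.Agent.Lib.MP_c98431_lc.Color

/-!
# From items to randomized algorithms: definitions
-/

set_option autoImplicit false

open Finset

namespace Pool.Agent.MPc98431

variable {n : ℕ}

open Classical in
/-- A reduction of the call admission problem to the static problem with keys.
`M` bounds the ratio budget/weight, `c` the cell loads of feasible sets, `Q` is the number of classes of keys. -/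
structure Red (n : ℕ) (u Δb Δd Δr M c : ℝ) (Q : ℕ) where
  K : Type
  itm : (ℕ → Req n) → ℕ → Item K
  cls : K → ℕ
  large : K → Prop
  itm_online : ∀ (σ σ' : ℕ → Req n) (j : ℕ), (∀ i ≤ j, σ i = σ' i) → itm σ j = itm σ' j
  good : ∀ (σ : ℕ → Req n) (m : ℕ), Valid u Δb Δd Δr σ m → Good (itm σ) M m
  cls_lt : ∀ (σ : ℕ → Req n) (m : ℕ), Valid u Δb Δd Δr σ m → ∀ j < m, cls (itm σ j).key < Q
  w_large : ∀ (σ : ℕ → Req n) (m : ℕ), Valid u Δb Δd Δr σ m → ∀ j < m, large (itm σ j).key →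
    (itm σ j).w = 1
  w_small : ∀ (σ : ℕ → Req n) (m : ℕ), Valid u Δb Δd Δr σ m → ∀ j < m, ¬ large (itm σ j).key →
    u * (itm σ j).w = 4 * (σ j).r
  budget : ∀ (σ : ℕ → Req n) (m : ℕ), Valid u Δb Δd Δr σ m → ∃ θ : K → ℝ, (∀ k, 0 < θ k) ∧
    ∀ j < m, (itm σ j).B = θ (itm σ j).key * (σ j).b
  /-- requests of the same class which conflict have the same key -/
  sep : ∀ (σ : ℕ → Req n) (m : ℕ), Valid u Δb Δd Δr σ m → ∀ i < m, ∀ j < m, ∀ (e : ℕ) (τ : ℝ),
    e ∈ (σ i).path → e ∈ (σ j).path → (σ i).Active τ → (σ j).Active τ →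
    cls (itm σ i).key = cls (itm σ j).key → (large (itm σ i).key ↔ large (itm σ j).key) →
    (itm σ i).key = (itm σ j).key
  /-- conflicting requests share a cell -/
  cell : ∀ (σ : ℕ → Req n) (m : ℕ), Valid u Δb Δd Δr σ m → ∀ (e : ℕ) (τ : ℝ), ∃ g : ℤ,
    ∀ j < m, e ∈ (σ j).path → (σ j).Active τ → g ∈ (itm σ j).cells
  opt : ∀ (σ : ℕ → Req n) (m : ℕ), Valid u Δb Δd Δr σ m → ∀ S, Feas u σ m S → ∀ (k : K) (z : ℤ),
    ∑ i ∈ S.filter (fun i => (itm σ i).key = k ∧ z ∈ (itm σ i).cells), (itm σ i).w ≤ c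

namespace Red

variable {u Δb Δd Δr M c : ℝ} {Q : ℕ} (R : Red n u Δb Δd Δr M c Q)

/-- The deterministic algorithm with parameters `(z, q, p, s)`: accept the virtually accepted requests with
size `z`, class `q`, level `p + 1`, and colour `s` if they are large. -/
noncomputable def dalg (z : Bool) (q p s : ℕ) : OnlineAlg n where
  acc σ j := VV (R.itm σ) j ∧ (R.large (R.itm σ j).key ↔ z = true) ∧ R.cls (R.itm σ j).key = q ∧
    LV (R.itm σ) j = p + 1 ∧ (z = true → CV (R.itm σ) j = s)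
  online σ σ' j h := by
    have h' : ∀ i ≤ j, R.itm σ i = R.itm σ' i := fun i hi =>
      R.itm_online σ σ' i fun l hl => h l (hl.trans hi)
    rw [VV_congr _ _ j h', LV_congr _ _ j h', CV_congr _ _ j h', h' j le_rfl]

/-- The randomized algorithm: uniform choice of the parameters. -/
noncomputable def ralg (P : ℕ) (hP : 1 ≤ P) (hQ : 1 ≤ Q) : RandAlg n where
  Ω := Bool × Fin Q × Fin P × Fin 3
  fin := inferInstance
  p _ := 1 / (6 * Q * P : ℝ)
  p_nonneg _ := by positivity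
  p_sum := by
    rw [Finset.sum_const, Finset.card_univ]
    simp only [Fintype.card_prod, Fintype.card_bool, Fintype.card_fin, nsmul_eq_mul]
    push_cast
    have : (Q : ℝ) ≠ 0 := by exact_mod_cast (by omega : Q ≠ 0)
    have : (P : ℝ) ≠ 0 := by exact_mod_cast (by omega : P ≠ 0)
    field_simp
    norm_num
  alg ω := R.dalg ω.1 ω.2.1 ω.2.2.1 ω.2.2.2

end Red

end Pool.Agent.MPc98431
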