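import Pool.Agent.Lib.MP_c98431_lc.Gen

/-!
# JOB GenValue: the gain of the algorithms `dalg`
-/

set_option autoImplicit false

open Finset

namespace Pool.Agent.MPc98431

variable {n : ℕ}

open Classical in
/-- The virtually accepted requests have at least `1/(1+2c)` of the benefit of every feasible set `S`.
For each key `k`: `value_le` with `O = {i ∈ S | key i = k}` (and `isV_VV`), divide by `θ k > 0`; sum over the finite set
of keys of the requests `i < m` (`Finset.sum_fiberwise_of_maps_to`). -/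
theorem Red.virtual_value {u Δb Δd Δr M c : ℝ} {Q : ℕ} (R : Red n u Δb Δd Δr M c Q) (hc : 0 ≤ c)
    (σ : ℕ → Req n) (m : ℕ) (hσ : Valid u Δb Δd Δr σ m) (S : Finset ℕ) (hS : Feas u σ m S) :
    gain σ S ≤ (1 + 2 * c) * gain σ ((range m).filter (fun j => VV (R.itm σ) j)) := by
  obtain ⟨θ, hθ, hB⟩ := R.budget σ m hσ
  have hSm : S ⊆ range m := hS.1
  obtain ⟨x, hx⟩ : ∃ x : ℕ → Item R.K, x = R.itm σ := ⟨_, rfl⟩
  have hkey : ∀ k : R.K, ∑ i ∈ S.filter (fun i => (x i).key = k), (σ i).b ≤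
      (1 + 2 * c) * ∑ i ∈ ((range m).filter (fun j => VV x j)).filter (fun i => (x i).key = k),
        (σ i).b := by
    intro k
    have h1 := value_le (isV_VV x) (by rw [hx]; exact R.good σ m hσ) k hc
      (O := S.filter (fun i => (x i).key = k))
      ((Finset.filter_subset _ _).trans hSm) (fun i hi => (Finset.mem_filter.1 hi).2) (by
        intro e
        rw [Finset.filter_filter, hx]
        exact R.opt σ m hσ S hS k e)
    have h2 : ∑ i ∈ S.filter (fun i => (x i).key = k), (x i).B =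
        θ k * ∑ i ∈ S.filter (fun i => (x i).key = k), (σ i).b := by
      rw [Finset.mul_sum]
      refine Finset.sum_congr rfl fun i hi => ?_
      rw [Finset.mem_filter] at hi
      have h3 := hB i (Finset.mem_range.1 (hSm hi.1))
      rw [← hx, hi.2] at h3
      exact h3
    have h3 : ∑ i ∈ (range m).filter (fun i => VV x i ∧ (x i).key = k), (x i).B =
        θ k * ∑ i ∈ ((range m).filter (fun j => VV x j)).filter (fun i => (x i).key = k),
          (σ i).b := by
      rw [Finset.filter_filter, Finset.mul_sum]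
      refine Finset.sum_congr rfl fun i hi => ?_
      rw [Finset.mem_filter] at hi
      have h3 := hB i (Finset.mem_range.1 hi.1)
      rw [← hx, hi.2.2] at h3
      exact h3
    rw [h2, h3] at h1
    have h4 : θ k * ∑ i ∈ S.filter (fun i => (x i).key = k), (σ i).b ≤ θ k *
        ((1 + 2 * c) * ∑ i ∈ ((range m).filter (fun j => VV x j)).filter
          (fun i => (x i).key = k), (σ i).b) := by
      calc _ ≤ _ := h1
        _ = _ := by ring
    exact le_of_mul_le_mul_left h4 (hθ k)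
  have hmap1 : ∀ i ∈ S, (x i).key ∈ (range m).image (fun i => (x i).key) :=
    fun i hi => Finset.mem_image_of_mem (fun i => (x i).key) (hSm hi)
  have hmap2 : ∀ i ∈ (range m).filter (fun j => VV x j),
      (x i).key ∈ (range m).image (fun i => (x i).key) :=
    fun i hi => Finset.mem_image_of_mem (fun i => (x i).key) (Finset.mem_filter.1 hi).1
  have h5 := Finset.sum_fiberwise_of_maps_to hmap1 (fun i => (σ i).b)
  have h6 := Finset.sum_fiberwise_of_maps_to hmap2 (fun i => (σ i).b)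
  unfold gain
  rw [← hx, ← h5, ← h6, Finset.mul_sum]
  exact Finset.sum_le_sum fun k _ => hkey k

open Classical in
/-- Every virtually accepted request is accepted for at least one value of the parameters:
`z` = size, `q = cls < Q`, `p + 1 = lev ≤ P` (`lev_mem` gives `1 ≤ lev`, `load_le` and `lev_le` give `lev ≤ P`), `s = col < 3` if
large (`col_lt`), `s = 0` if small. -/
theorem Red.cover {u Δb Δd Δr M c : ℝ} {Q : ℕ} (R : Red n u Δb Δd Δr M c Q) (hM : 0 ≤ M) {P : ℕ}
    (hP : 1 ≤ P) (hPM : Real.logb 2 (1 + M) + 1 ≤ P)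
    (σ : ℕ → Req n) (m : ℕ) (hσ : Valid u Δb Δd Δr σ m) (j : ℕ) (hj : j < m) (hV : VV (R.itm σ) j) :
    ∃ ω : Bool × Fin Q × Fin P × Fin 3, (R.dalg ω.1 ω.2.1 ω.2.2.1 ω.2.2.2).acc σ j := by
  have hgood := R.good σ m hσ
  have hL := isLev_LV (R.itm σ)
  have hl1 : 1 ≤ LV (R.itm σ) j := (lev_mem hL j).1
  have hlP : LV (R.itm σ) j ≤ P := by
    refine lev_le hL hgood hj hP fun e he => ?_
    exact (load_le (isV_VV (R.itm σ)) hgood hM hj hV he).trans hPM
  have hq := R.cls_lt σ m hσ j hj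
  by_cases hlarge : R.large (R.itm σ j).key
  · have hcol : CV (R.itm σ) j < 3 := by
      refine col_lt hL (isCol_CV (R.itm σ)) hgood (R.itm σ j).key ?_ hj hV rfl
      intro i hi hk
      exact R.w_large σ m hσ i hi (by rw [hk]; exact hlarge)
    refine ⟨(true, ⟨R.cls (R.itm σ j).key, hq⟩, ⟨LV (R.itm σ) j - 1, by omega⟩,
      ⟨CV (R.itm σ) j, hcol⟩), hV, ?_, rfl, ?_, fun _ => rfl⟩
    · exact ⟨fun _ => rfl, fun _ => hlarge⟩
    · change LV (R.itm σ) j = LV (R.itm σ) j - 1 + 1
      omega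
  · refine ⟨(false, ⟨R.cls (R.itm σ j).key, hq⟩, ⟨LV (R.itm σ) j - 1, by omega⟩,
      ⟨0, by norm_num⟩), hV, ?_, rfl, ?_, ?_⟩
    · exact ⟨fun h => absurd h hlarge, fun h => by simp at h⟩
    · change LV (R.itm σ) j = LV (R.itm σ) j - 1 + 1
      omega
    · intro h
      simp at h

open Classical in
/-- Hence the sum of the gains over all parameters is at least the benefit of the virtually accepted
requests (benefits are positive; exchange the sums). -/
theorem Red.sum_gain {u Δb Δd Δr M c : ℝ} {Q : ℕ} (R : Red n u Δb Δd Δr M c Q) (hM : 0 ≤ M) {P : ℕ}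
    (hP : 1 ≤ P) (hPM : Real.logb 2 (1 + M) + 1 ≤ P)
    (σ : ℕ → Req n) (m : ℕ) (hσ : Valid u Δb Δd Δr σ m) :
    gain σ ((range m).filter (fun j => VV (R.itm σ) j)) ≤
      ∑ ω : Bool × Fin Q × Fin P × Fin 3, gain σ ((R.dalg ω.1 ω.2.1 ω.2.2.1 ω.2.2.2).accepted σ m) := by
  have h1 : ∀ ω : Bool × Fin Q × Fin P × Fin 3,
      gain σ ((R.dalg ω.1 ω.2.1 ω.2.2.1 ω.2.2.2).accepted σ m) =
        ∑ j ∈ range m, if (R.dalg ω.1 ω.2.1 ω.2.2.1 ω.2.2.2).acc σ j then (σ j).b else 0 := by
    intro ω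
    unfold gain OnlineAlg.accepted
    rw [Finset.sum_filter]
  rw [Finset.sum_congr rfl fun ω _ => h1 ω, Finset.sum_comm]
  unfold gain
  rw [Finset.sum_filter]
  refine Finset.sum_le_sum fun j hj => ?_
  have hjm := Finset.mem_range.1 hj
  have hb : 0 ≤ (σ j).b := (hσ.b_pos j hjm).le
  have hnn : ∀ ω : Bool × Fin Q × Fin P × Fin 3, 0 ≤
      (if (R.dalg ω.1 ω.2.1 ω.2.2.1 ω.2.2.2).acc σ j then (σ j).b else 0) := by
    intro ω
    split_ifs
    · exact hb
    · exact le_rfl
  split_ifs with hV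
  · obtain ⟨ω, hω⟩ := R.cover hM hP hPM σ m hσ j hjm hV
    have h2 := Finset.single_le_sum (f := fun ω : Bool × Fin Q × Fin P × Fin 3 =>
      (if (R.dalg ω.1 ω.2.1 ω.2.2.1 ω.2.2.2).acc σ j then (σ j).b else 0))
      (fun ω _ => hnn ω) (Finset.mem_univ ω)
    rw [if_pos hω] at h2
    exact h2
  · exact Finset.sum_nonneg fun ω _ => hnn ω

end Pool.Agent.MPc98431
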