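import Pool.Agent.Lib.MP_c98431_lc.GenFeas
import Pool.Agent.Lib.MP_c98431_lc.GenValue

/-!
# The competitive ratio of the randomized algorithm
-/

set_option autoImplicit false

open Finset

namespace Pool.Agent.MPc98431

variable {n : ℕ}

theorem Red.competitive {u Δb Δd Δr M c : ℝ} {Q : ℕ} (R : Red n u Δb Δd Δr M c Q) (hu : 0 < u)
    (hM : 0 ≤ M) (hc : 0 ≤ c) {P : ℕ} (hP : 1 ≤ P) (hPM : Real.logb 2 (1 + M) + 1 ≤ P) (hQ : 1 ≤ Q) :
    (R.ralg P hP hQ).Competitive u Δb Δd Δr ((1 + 2 * c) * (6 * Q * P)) := by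
  intro σ m hσ
  refine ⟨fun ω => R.dalg_feas hu _ _ _ _ σ m hσ, fun S hS => ?_⟩
  have h1 := R.virtual_value hc σ m hσ S hS
  have h2 := R.sum_gain hM hP hPM σ m hσ
  have hQ0 : (Q : ℝ) ≠ 0 := by exact_mod_cast (by omega : Q ≠ 0)
  have hP0 : (P : ℝ) ≠ 0 := by exact_mod_cast (by omega : P ≠ 0)
  have e : (1 + 2 * c) * (6 * Q * P) * (R.ralg P hP hQ).egain σ m =
      (1 + 2 * c) * ∑ ω : Bool × Fin Q × Fin P × Fin 3,
        gain σ ((R.dalg ω.1 ω.2.1 ω.2.2.1 ω.2.2.2).accepted σ m) := by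
    have e2 : (R.ralg P hP hQ).egain σ m = (1 / (6 * Q * P : ℝ)) *
        ∑ ω : Bool × Fin Q × Fin P × Fin 3,
          gain σ ((R.dalg ω.1 ω.2.1 ω.2.2.1 ω.2.2.2).accepted σ m) := by
      rw [Finset.mul_sum]
      rfl
    rw [e2]
    field_simp
  rw [e]
  refine h1.trans (mul_le_mul_of_nonneg_left h2 (by linarith))

end Pool.Agent.MPc98431
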