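import Pool.Agent.Lib.MP_c98431_lc.Gen

/-!
# JOB GenFeas: the algorithms `dalg` never violate a capacity
-/

set_option autoImplicit false

open Finset

namespace Pool.Agent.MPc98431

variable {n : ℕ}

private lemma GenFeas_le_ld {K : Type} (x : ℕ → Item K) (A : ℕ → Prop) (m : ℕ) (k : K) (e : ℤ)
    (T : Finset ℕ) (h : ∀ j ∈ T, j < m ∧ A j ∧ (x j).key = k ∧ e ∈ (x j).cells)
    (hw : ∀ j < m, 0 ≤ (x j).w) : ∑ j ∈ T, (x j).w ≤ ld x A m k e := by
  classical
  unfold ld
  refine Finset.sum_le_sum_of_subset_of_nonneg ?_ ?_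
  · intro j hj
    obtain ⟨h1, h2⟩ := h j hj
    exact Finset.mem_filter.2 ⟨Finset.mem_range.2 h1, h2⟩
  · intro j hj _
    exact hw j (Finset.mem_range.1 (Finset.mem_filter.1 hj).1)

/-- Fix `e`, `τ` and let `T` be the set of the accepted requests which use the edge `e` and are active at `τ`.
By `sep` all have the same key `k`, by `cell` all contain a cell `g`, all have level `p + 1`.
Small (`z = false`): `∑_T r_j = (u/4) ∑_T w_j ≤ (u/4) ld(level p+1, k, g) ≤ u` (`level_load` with `isLev_LV`).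
Large (`z = true`): two different elements of `T` have the same colour, contradiction to `col_disj` (`g` is a common
cell; the keys are large, so all weights of items with key `k` are `1`); so `T` has at most one element and `r_j ≤ u`. -/
theorem Red.dalg_feas {u Δb Δd Δr M c : ℝ} {Q : ℕ} (R : Red n u Δb Δd Δr M c Q) (hu : 0 < u) (z : Bool)
    (q p s : ℕ) (σ : ℕ → Req n) (m : ℕ) (hσ : Valid u Δb Δd Δr σ m) :
    Feas u σ m ((R.dalg z q p s).accepted σ m) := by
  classical
  refine ⟨Finset.filter_subset _ _, fun e τ => ?_⟩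
  obtain ⟨T, hT⟩ : ∃ T : Finset ℕ, T = ((R.dalg z q p s).accepted σ m).filter
      (fun j => e ∈ (σ j).path ∧ (σ j).Active τ) := ⟨_, rfl⟩
  have hmem : ∀ j ∈ T, j < m ∧ VV (R.itm σ) j ∧ (R.large (R.itm σ j).key ↔ z = true) ∧
      R.cls (R.itm σ j).key = q ∧ LV (R.itm σ) j = p + 1 ∧ (z = true → CV (R.itm σ) j = s) ∧
      e ∈ (σ j).path ∧ (σ j).Active τ := by
    intro j hj
    rw [hT, Finset.mem_filter] at hj
    obtain ⟨h1, h2, h3⟩ := hj
    unfold OnlineAlg.accepted at h1
    rw [Finset.mem_filter, Finset.mem_range] at h1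
    obtain ⟨h4, h5⟩ := h1
    obtain ⟨h6, h7, h8, h9, h10⟩ := h5
    exact ⟨h4, h6, h7, h8, h9, h10, h2, h3⟩
  have hgoal : ∑ j ∈ T, (σ j).r ≤ u := by
    rcases Finset.eq_empty_or_nonempty T with hemp | ⟨j0, hj0⟩
    · rw [hemp, Finset.sum_empty]
      exact hu.le
    obtain ⟨h0m, h0V, h0z, h0q, h0p, h0s, h0e, h0τ⟩ := hmem j0 hj0
    have hkey : ∀ j ∈ T, (R.itm σ j).key = (R.itm σ j0).key := by
      intro j hj
      obtain ⟨h1, h2, h3, h4, h5, h6, h7, h8⟩ := hmem j hj
      refine R.sep σ m hσ j h1 j0 h0m e τ h7 h0e h8 h0τ (by rw [h4, h0q]) ?_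
      rw [h3, h0z]
    obtain ⟨g, hg⟩ := R.cell σ m hσ e τ
    have hgood := R.good σ m hσ
    cases z with
    | false =>
      have h1 : ∀ j ∈ T, (σ j).r = u / 4 * (R.itm σ j).w := by
        intro j hj
        obtain ⟨h1, h2, h3, h4, h5, h6, h7, h8⟩ := hmem j hj
        have h9 : ¬ R.large (R.itm σ j).key := by
          rw [h3]
          simp
        have h10 := R.w_small σ m hσ j h1 h9
        linarith
      rw [Finset.sum_congr rfl h1, ← Finset.mul_sum]
      have h2 : ∑ j ∈ T, (R.itm σ j).w ≤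
          ld (R.itm σ) (fun i => VV (R.itm σ) i ∧ LV (R.itm σ) i = p + 1) m
            (R.itm σ j0).key g := by
        refine GenFeas_le_ld _ _ _ _ _ T ?_ (fun j hj => (hgood j hj).1.le)
        intro j hj
        obtain ⟨h1, h2, h3, h4, h5, h6, h7, h8⟩ := hmem j hj
        exact ⟨h1, ⟨h2, h5⟩, hkey j hj, hg j h1 h7 h8⟩
      have h3 := level_load (isLev_LV (R.itm σ)) hgood (R.itm σ j0).key (p + 1) g
      have h4 : ∑ j ∈ T, (R.itm σ j).w ≤ 4 := h2.trans h3
      have h5 : u / 4 * ∑ j ∈ T, (R.itm σ j).w ≤ u / 4 * 4 :=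
        mul_le_mul_of_nonneg_left h4 (by linarith)
      linarith
    | true =>
      have hlarge : R.large (R.itm σ j0).key := h0z.2 rfl
      have hw1 : ∀ i < m, (R.itm σ i).key = (R.itm σ j0).key → (R.itm σ i).w = 1 := by
        intro i hi hk
        exact R.w_large σ m hσ i hi (by rw [hk]; exact hlarge)
      have h1 : T = {j0} := by
        refine Finset.eq_singleton_iff_unique_mem.2 ⟨hj0, fun j hj => ?_⟩
        by_contra hne
        obtain ⟨h1, h2, h3, h4, h5, h6, h7, h8⟩ := hmem j hj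
        have h9 := col_disj (isLev_LV (R.itm σ)) (isCol_CV (R.itm σ)) hgood
          (R.itm σ j0).key hw1 h1 h0m h2 h0V (hkey j hj) rfl (by rw [h5, h0p])
          (by rw [h6 rfl, h0s rfl]) hne
        exact Finset.disjoint_left.1 h9 (hg j h1 h7 h8) (hg j0 h0m h0e h0τ)
      rw [h1, Finset.sum_singleton]
      exact hσ.r_le j0 h0m
  rw [hT] at hgoal
  convert hgoal using 2

end Pool.Agent.MPc98431
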