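import Pool.Agent.Lib.MP_c98431_lc.Gen

/-!
# The two reductions: definitions

Reduction A: cells = edges, keys = (size, duration class, epoch).
Reduction B: cells = time intervals of length `D`, keys = (size, separator edge of the path).
-/

set_option autoImplicit false

open Finset

namespace Pool.Agent.MPc98431

variable {n : ℕ}

/-- a lower bound of all durations, known after the first request -/
noncomputable def dmin (Δd : ℝ) (σ : ℕ → Req n) : ℝ := (σ 0).d / Δd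

/-- weight: `1` for large requests (`r > u/4`), `4 r / u` for small ones -/
noncomputable def wgt (u : ℝ) (x : Req n) : ℝ := if u < 4 * x.r then 1 else 4 * x.r / u

/-- normalisation of the benefits (`true` = large) -/
noncomputable def thb (u Δb Δr : ℝ) (σ : ℕ → Req n) (z : Bool) : ℝ :=
  if z = true then Δb / (σ 0).b else 4 * ((σ 0).r / u) * Δr * Δb / (σ 0).b

/-! ## Reduction A -/

/-- duration class -/
noncomputable def dcl (Δd : ℝ) (σ : ℕ → Req n) (j : ℕ) : ℕ := Nat.log 2 ⌊(σ j).d / dmin Δd σ⌋₊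

/-- epoch -/
noncomputable def epo (Δd : ℝ) (σ : ℕ → Req n) (j : ℕ) : ℤ :=
  ⌊(σ j).arr / (dmin Δd σ * 2 ^ dcl Δd σ j)⌋

open Classical in
noncomputable def itmA (u Δb Δd Δr : ℝ) (σ : ℕ → Req n) (j : ℕ) : Item (Bool × ℕ × ℤ) where
  key := (decide (u < 4 * (σ j).r), dcl Δd σ j, epo Δd σ j)
  lo := ((min ((σ j).s : ℕ) (σ j).t : ℕ) : ℤ)
  hi := ((max ((σ j).s : ℕ) (σ j).t : ℕ) : ℤ)
  w := wgt u (σ j)
  B := n * thb u Δb Δr σ (decide (u < 4 * (σ j).r)) * (σ j).b

/-- class: duration class and epoch modulo `3` -/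
def clsA (k : Bool × ℕ × ℤ) : ℕ := 3 * k.2.1 + (k.2.2 % 3).toNat

/-- number of duration classes -/
noncomputable def NL (Δd : ℝ) : ℕ := Nat.log 2 ⌊Δd ^ 2⌋₊ + 1

/-! ## Reduction B -/

/-- the order of the edge `e` (exponent of `2` in `e + 1`) -/
def ord2 (e : ℕ) : ℕ := padicValNat 2 (e + 1)

open Classical in
/-- the edge of the path with the greatest order -/
noncomputable def sepE (x : Req n) : Option ℕ :=
  if h : x.path.Nonempty then some (Classical.choose (Finset.exists_max_image x.path ord2 h)) else none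

open Classical in
noncomputable def itmB (u Δb Δd Δr : ℝ) (σ : ℕ → Req n) (j : ℕ) : Item (Bool × Option ℕ) where
  key := (decide (u < 4 * (σ j).r), sepE (σ j))
  lo := if (σ j).path.Nonempty then ⌊(σ j).arr / dmin Δd σ⌋ else 0
  hi := if (σ j).path.Nonempty then ⌈((σ j).arr + (σ j).d) / dmin Δd σ⌉ else 0
  w := wgt u (σ j)
  B := 3 * Δd ^ 2 * thb u Δb Δr σ (decide (u < 4 * (σ j).r)) * (σ j).b

/-- class: the order of the separator edge -/
def clsB (k : Bool × Option ℕ) : ℕ := k.2.elim 0 ord2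

/-! ## Weights and benefits (both reductions) -/

open Classical in
/-- `0 < w ≤ 1`, and the normalised benefit `θ b` satisfies `w ≤ θ b ≤ Δb² Δr² w`.
Large: `w = 1`, `θ b = Δb b_j / b_0 ∈ [1, Δb²]`.
Small: `w = 4 r_j/u ≤ 1`, `θ b = 4 (r_0/u) Δr Δb b_j/b_0`, `r_j ≤ Δr r_0`, `b_0 ≤ Δb b_j`, `r_0 ≤ Δr r_j`, `b_j ≤ Δb b_0`. -/
def WB (u Δb Δr : ℝ) (σ : ℕ → Req n) (m : ℕ) : Prop :=
  ∀ j < m, 0 < wgt u (σ j) ∧ wgt u (σ j) ≤ 1 ∧
    wgt u (σ j) ≤ thb u Δb Δr σ (decide (u < 4 * (σ j).r)) * (σ j).b ∧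
    thb u Δb Δr σ (decide (u < 4 * (σ j).r)) * (σ j).b ≤ Δb ^ 2 * Δr ^ 2 * wgt u (σ j)

end Pool.Agent.MPc98431
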