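import Mathlib

/-!
# The static packing problem on a line of cells (indexed by `ℤ`): definitions

An item has a key (items with different keys do not interact), an interval `[lo, hi)` of cells, a weight
`w ∈ (0,1]` and a budget `B`.  Items arrive in the order `x 0, x 1, ...`.
* `V` (virtual acceptance): item `j` is virtually accepted iff
  `w_j ∑_{e ∈ I_j} (2^{load(e)} - 1) ≤ B_j` (load of the previously virtually accepted items with the same key);
* `lev` (level): the least `p ≥ 1` such that the load of the levels `≤ p` plus `w_j` is at most `p` on `I_j`;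
* `col` (colour): first fit inside the items with the same key and level.
-/

set_option autoImplicit false

open Finset

namespace Pool.Agent.MPc98431

structure Item (K : Type) where
  key : K
  lo : ℤ
  hi : ℤ
  w : ℝ
  B : ℝ

variable {K : Type}

/-- the cells of an item -/
noncomputable def Item.cells (y : Item K) : Finset ℤ := Ico y.lo y.hi

open Classical in
/-- load of the cell `e` by the items `i < m` with `A i` and key `k` -/
noncomputable def ld (x : ℕ → Item K) (A : ℕ → Prop) (m : ℕ) (k : K) (e : ℤ) : ℝ :=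
  ∑ i ∈ (range m).filter (fun i => A i ∧ (x i).key = k ∧ e ∈ (x i).cells), (x i).w

/-- the virtual acceptance rule (for a given acceptance `V` of the previous items) -/
def FV (x : ℕ → Item K) (V : ℕ → Prop) (j : ℕ) : Prop :=
  (x j).w * ∑ e ∈ (x j).cells, ((2 : ℝ) ^ (ld x V j (x j).key e) - 1) ≤ (x j).B

/-- the set of admissible levels -/
def levSet (x : ℕ → Item K) (V : ℕ → Prop) (lev : ℕ → ℕ) (j : ℕ) : Set ℕ :=
  {p : ℕ | 1 ≤ p ∧ ∀ e ∈ (x j).cells,
    ld x (fun i => V i ∧ lev i ≤ p) j (x j).key e + (x j).w ≤ p}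

/-- the set of admissible colours -/
def colSet (x : ℕ → Item K) (V : ℕ → Prop) (lev col : ℕ → ℕ) (j : ℕ) : Set ℕ :=
  {c : ℕ | ∀ i < j, V i → (x i).key = (x j).key → lev i = lev j →
    ((x i).cells ∩ (x j).cells).Nonempty → col i ≠ c}

def IsV (x : ℕ → Item K) (V : ℕ → Prop) : Prop := ∀ j, V j ↔ FV x V j
def IsLev (x : ℕ → Item K) (V : ℕ → Prop) (lev : ℕ → ℕ) : Prop := ∀ j, lev j = sInf (levSet x V lev j)
def IsCol (x : ℕ → Item K) (V : ℕ → Prop) (lev col : ℕ → ℕ) : Prop :=
  ∀ j, col j = sInf (colSet x V lev col j)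

/-- hypotheses on the first `m` items: `w ∈ (0,1]`, `w · #cells ≤ B ≤ M w` -/
def Good (x : ℕ → Item K) (M : ℝ) (m : ℕ) : Prop :=
  ∀ i < m, 0 < (x i).w ∧ (x i).w ≤ 1 ∧ (x i).w * ((x i).cells.card : ℝ) ≤ (x i).B ∧
    (x i).B ≤ M * (x i).w

end Pool.Agent.MPc98431
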